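import Mathlib

open Finset

namespace Pool.Agent.H.Berg

open Classical in
noncomputable def ind (p : Prop) : ℝ := if p then 1 else 0

lemma ind_pos {p : Prop} (h : p) : ind p = 1 := by simp [ind, h]
lemma ind_neg {p : Prop} (h : ¬ p) : ind p = 0 := by simp [ind, h]
lemma ind_nonneg (p : Prop) : 0 ≤ ind p := by unfold ind; split_ifs <;> norm_num
lemma ind_le_one (p : Prop) : ind p ≤ 1 := by unfold ind; split_ifs <;> norm_num
lemma ind_mono {p q : Prop} (h : p → q) : ind p ≤ ind q := by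
  by_cases hp : p
  · rw [ind_pos hp, ind_pos (h hp)]
  · rw [ind_neg hp]; exact ind_nonneg _
lemma ind_congr {p q : Prop} (h : p ↔ q) : ind p = ind q := by rw [propext h]
lemma ind_and (p q : Prop) : ind (p ∧ q) = ind p * ind q := by
  by_cases hp : p <;> by_cases hq : q <;> simp [ind, hp, hq]
lemma ind_or_le (p q : Prop) : ind (p ∨ q) ≤ ind p + ind q := by
  by_cases hp : p <;> by_cases hq : q <;> simp [ind, hp, hq]
lemma ind_not (p : Prop) : ind (¬ p) = 1 - ind p := by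
  by_cases hp : p <;> simp [ind, hp]
lemma ind_exists_le {ι : Type*} [Fintype ι] (E : ι → Prop) : ind (∃ i, E i) ≤ ∑ i, ind (E i) := by
  by_cases h : ∃ i, E i
  · obtain ⟨i, hi⟩ := h
    rw [ind_pos ⟨i, hi⟩, ← ind_pos hi]
    exact single_le_sum (f := fun i => ind (E i)) (fun i _ => ind_nonneg _) (mem_univ i)
  · rw [ind_neg h]; exact sum_nonneg fun i _ => ind_nonneg _
lemma ind_forall {ι : Type*} [Fintype ι] (E : ι → Prop) : ind (∀ i, E i) = ∏ i, ind (E i) := by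
  by_cases h : ∀ i, E i
  · rw [ind_pos h]; symm; exact prod_eq_one fun i _ => ind_pos (h i)
  · rw [ind_neg h]; push Not at h; obtain ⟨i, hi⟩ := h
    symm; exact prod_eq_zero (mem_univ i) (ind_neg hi)

noncomputable def Pr {Ω : Type*} [Fintype Ω] (E : Ω → Prop) : ℝ :=
  (∑ ω, ind (E ω)) / Fintype.card Ω

section basic
variable {Ω Ω' : Type*} [Fintype Ω] [Fintype Ω']

lemma Pr_nonneg (E : Ω → Prop) : 0 ≤ Pr E :=
  div_nonneg (sum_nonneg fun _ _ => ind_nonneg _) (Nat.cast_nonneg _)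

lemma Pr_mono {E F : Ω → Prop} (h : ∀ ω, E ω → F ω) : Pr E ≤ Pr F :=
  div_le_div_of_nonneg_right (sum_le_sum fun ω _ => ind_mono (h ω)) (Nat.cast_nonneg _)

lemma Pr_congr {E F : Ω → Prop} (h : ∀ ω, E ω ↔ F ω) : Pr E = Pr F :=
  le_antisymm (Pr_mono fun ω => (h ω).1) (Pr_mono fun ω => (h ω).2)

lemma Pr_or_le (E F : Ω → Prop) : Pr (fun ω => E ω ∨ F ω) ≤ Pr E + Pr F := by
  unfold Pr; rw [← add_div, ← sum_add_distrib]
  exact div_le_div_of_nonneg_right (sum_le_sum fun ω _ => ind_or_le _ _) (Nat.cast_nonneg _)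

lemma Pr_exists_le {ι : Type*} [Fintype ι] (E : ι → Ω → Prop) :
    Pr (fun ω => ∃ i, E i ω) ≤ ∑ i, Pr (E i) := by
  unfold Pr; rw [← sum_div, sum_comm]
  exact div_le_div_of_nonneg_right (sum_le_sum fun ω _ => ind_exists_le _) (Nat.cast_nonneg _)

lemma Pr_exists_le' {ι : Type*} [Fintype ι] (E : ι → Ω → Prop) (c : ℝ) (h : ∀ i, Pr (E i) ≤ c) :
    Pr (fun ω => ∃ i, E i ω) ≤ Fintype.card ι * c := by
  refine (Pr_exists_le E).trans ((sum_le_sum fun i _ => h i).trans ?_)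
  simp

lemma Pr_false : Pr (fun _ : Ω => False) = 0 := by simp [Pr, ind]

lemma Pr_eq_zero {E : Ω → Prop} (h : ∀ ω, ¬ E ω) : Pr E = 0 := by
  rw [← Pr_false (Ω := Ω)]; exact Pr_congr fun ω => by simp [h ω]

lemma Pr_true [Nonempty Ω] : Pr (fun _ : Ω => True) = 1 := by
  simp [Pr, ind]

lemma Pr_not [Nonempty Ω] (E : Ω → Prop) : Pr (fun ω => ¬ E ω) = 1 - Pr E := by
  have : (Fintype.card Ω : ℝ) ≠ 0 := by simp
  unfold Pr; simp only [ind_not, sum_sub_distrib]; field_simp; simp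

lemma Pr_single (a : Ω) : Pr (fun ω => ω = a) = 1 / Fintype.card Ω := by
  unfold Pr; congr 1
  rw [sum_eq_single a (fun b _ hb => ind_neg hb) (by simp), ind_pos rfl]

lemma exists_not_of_Pr_lt [Nonempty Ω] {E : Ω → Prop} (h : Pr E < 1) : ∃ ω, ¬ E ω := by
  by_contra hh; push Not at hh
  have := Pr_mono (E := fun _ : Ω => True) (F := E) fun ω _ => hh ω
  rw [Pr_true] at this; linarith

lemma Pr_equiv (e : Ω ≃ Ω') (E : Ω' → Prop) : Pr (fun ω => E (e ω)) = Pr E := by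
  unfold Pr; rw [Fintype.card_congr e, Equiv.sum_comp e (fun ω => ind (E ω))]

lemma Pr_inj {π : Ω → Ω} (h : Function.Injective π) (E : Ω → Prop) :
    Pr (fun ω => E (π ω)) = Pr E :=
  Pr_equiv (Equiv.ofBijective π (Finite.injective_iff_bijective.1 h)) E

lemma Pr_prod (E : Ω × Ω' → Prop) :
    Pr E = (∑ a, Pr (fun b => E (a, b))) / Fintype.card Ω := by
  unfold Pr; rw [← sum_div, Fintype.sum_prod_type, Fintype.card_prod, div_div, Nat.cast_mul,
    mul_comm]

lemma Pr_and_prod (A : Ω → Prop) (B : Ω' → Prop) :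
    Pr (fun p : Ω × Ω' => A p.1 ∧ B p.2) = Pr A * Pr B := by
  unfold Pr; simp only [ind_and]
  rw [Fintype.sum_prod_type, Fintype.card_prod, Nat.cast_mul, div_mul_div_comm, sum_mul_sum]

lemma Pr_fst [Nonempty Ω'] (A : Ω → Prop) : Pr (fun p : Ω × Ω' => A p.1) = Pr A := by
  have := Pr_and_prod A (fun _ : Ω' => True); simpa [Pr_true] using this

lemma Pr_snd [Nonempty Ω] (A : Ω' → Prop) : Pr (fun p : Ω × Ω' => A p.2) = Pr A := by
  have := Pr_and_prod (fun _ : Ω => True) A; simpa [Pr_true] using this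

lemma Pr_pi {ι : Type*} [Fintype ι] [DecidableEq ι] (E : ι → Ω → Prop) :
    Pr (fun ω : ι → Ω => ∀ i, E i (ω i)) = ∏ i, Pr (E i) := by
  unfold Pr; simp only [ind_forall]
  rw [prod_div_distrib, Fintype.prod_sum, Fintype.card_pi, Nat.cast_prod]

lemma Pr_eval [Nonempty Ω] {ι : Type*} [Fintype ι] [DecidableEq ι] (j : ι) (E : Ω → Prop) :
    Pr (fun ω : ι → Ω => E (ω j)) = Pr E := by
  have := Pr_pi (fun i ω => i = j → E ω)
  rw [prod_eq_single j (fun i _ hi => by simp [hi, Pr_true]) (by simp)] at this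
  simpa using this

lemma Pr_eval2 [Nonempty Ω] {ι : Type*} [Fintype ι] [DecidableEq ι] {j q : ι} (h : j ≠ q)
    (E F : Ω → Prop) :
    Pr (fun ω : ι → Ω => E (ω j) ∧ F (ω q)) = Pr E * Pr F := by
  have := Pr_pi (fun i ω => (i = j → E ω) ∧ (i = q → F ω))
  rw [Fintype.prod_eq_mul j q h (fun i hi => by simp [hi.1, hi.2, Pr_true])] at this
  simpa [forall_and, h, h.symm] using this

lemma Pr_eval3 [Nonempty Ω] {ι : Type*} [Fintype ι] [DecidableEq ι] {j q r : ι} (h : j ≠ q)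
    (h2 : j ≠ r) (h3 : q ≠ r) (E : Ω → Prop) :
    Pr (fun ω : ι → Ω => E (ω j) ∧ E (ω q) ∧ E (ω r)) = Pr E ^ 3 := by
  have := Pr_pi (fun i ω => i ∈ ({j, q, r} : Finset ι) → E ω)
  rw [← prod_subset (subset_univ ({j, q, r} : Finset ι))
    (fun i _ hi => by simp only [hi]; simp [Pr_true])] at this
  rw [prod_congr rfl (g := fun _ => Pr E) (fun i hi => by simp only [hi]; simp), prod_const,
    card_eq_three.2 ⟨j, q, r, h, h2, h3, rfl⟩] at this
  simpa using this

def UP (φ : Ω → Ω') : Prop := ∀ a, Pr (fun ω => φ ω = a) = 1 / Fintype.card Ω'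

lemma UP.pr {φ : Ω → Ω'} (h : UP φ) (E : Ω' → Prop) : Pr (fun ω => E (φ ω)) = Pr E := by
  have h1 : ∀ ω, ind (E (φ ω)) = ∑ a, ind (E a) * ind (φ ω = a) := fun ω => by
    rw [sum_eq_single (φ ω) (fun b _ hb => by rw [ind_neg (Ne.symm hb), mul_zero]) (by simp),
      ind_pos rfl, mul_one]
  have h2 : Pr (fun ω => E (φ ω)) = ∑ a, ind (E a) * Pr (fun ω => φ ω = a) := by
    unfold Pr; simp only [h1]; rw [sum_comm, sum_div]
    refine sum_congr rfl fun a _ => ?_
    rw [← mul_sum, mul_div_assoc]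
  rw [h2]; simp only [h _]; unfold Pr; rw [sum_div]
  exact sum_congr rfl fun a _ => by ring

lemma UP.pi {φ : Ω → Ω'} (h : UP φ) (ι : Type*) [Fintype ι] [DecidableEq ι] :
    UP (fun (ω : ι → Ω) (i : ι) => φ (ω i)) := fun a => by
  have := Pr_pi (fun i ω => φ ω = a i)
  simp only [h _] at this
  simp only [funext_iff]; rw [this]; simp

lemma UP.prod {φ : Ω → Ω'} (h : UP φ) :
    UP (fun (ω : Ω × Ω) => (φ ω.1, φ ω.2)) := fun a => by
  have := Pr_and_prod (fun ω => φ ω = a.1) (fun ω => φ ω = a.2)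
  simp only [h _] at this
  simp only [Prod.ext_iff]; rw [this]; simp

lemma UP_pair [Nonempty Ω] {ι : Type*} [Fintype ι] [DecidableEq ι] {j q : ι} (h : j ≠ q) :
    UP (fun ω : ι → Ω => (ω j, ω q)) := fun a => by
  have := Pr_eval2 h (fun ω => ω = a.1) (fun ω => ω = a.2)
  simp only [Pr_single] at this
  simp only [Prod.ext_iff]; rw [this]; simp

lemma UP_fst [Nonempty Ω'] : UP (fun p : Ω × Ω' => p.1) := fun a => by
  rw [Pr_fst (fun x => x = a), Pr_single]

lemma UP_snd [Nonempty Ω] : UP (fun p : Ω × Ω' => p.2) := fun a => by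
  rw [Pr_snd (fun x => x = a), Pr_single]

lemma Pr_diag : Pr (fun p : Ω × Ω => p.1 = p.2) ≤ 1 / Fintype.card Ω := by
  rw [Pr_prod]
  have : ∀ a : Ω, Pr (fun b : Ω => ((a, b) : Ω × Ω).1 = (a, b).2) = 1 / Fintype.card Ω :=
    fun a => by rw [← Pr_single a]; exact Pr_congr fun b => eq_comm
  simp only [this, sum_const, card_univ, nsmul_eq_mul]
  rcases eq_or_ne (Fintype.card Ω : ℝ) 0 with h | h
  · simp [h]
  · field_simp; rfl

end basic

end Pool.Agent.H.Berg
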