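import Pool.Agent.H.MP_335725_an.A

open Finset Function

namespace Pool.Agent.H.Berg

lemma UP.comp {Ω Ω' Ω'' : Type*} [Fintype Ω] [Fintype Ω'] [Fintype Ω''] {φ : Ω → Ω'}
    {ψ : Ω' → Ω''} (hψ : UP ψ) (hφ : UP φ) : UP (fun ω => ψ (φ ω)) := fun a =>
  (hφ.pr (fun b => ψ b = a)).trans (hψ a)

lemma Pr_prod_le {Ω Ω' : Type*} [Fintype Ω] [Fintype Ω'] (E : Ω × Ω' → Prop) (F : Ω → Prop)
    (c : ℝ) (h : ∀ a, Pr (fun b => E (a, b)) ≤ c * ind (F a)) : Pr E ≤ c * Pr F := by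
  rw [Pr_prod]; unfold Pr at *
  rw [← mul_div_assoc, mul_sum]
  exact div_le_div_of_nonneg_right (sum_le_sum fun a _ => h a) (Nat.cast_nonneg _)

abbrev Ob (q n : ℕ) := Bool × ZMod q × Fin n

def xb {q n : ℕ} (ω : Ob q n) : ZMod q × Fin n → ZMod 3 :=
  Pi.single ω.2 (if ω.1 then -1 else 1)

def gb {q n : ℕ} (ω : Ob q n) : ZMod q := if ω.1 then ω.2.1 else 0

def sb {q n : ℕ} (p : Ob q n × Ob q n) : Ob q n × Ob q n := ((!p.2.1, p.2.2), (!p.1.1, p.1.2))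

lemma sb_inj {q n : ℕ} : Injective (sb (q := q) (n := n)) := by
  rintro ⟨⟨a, b⟩, ⟨c, d⟩⟩ ⟨⟨a', b'⟩, ⟨c', d'⟩⟩ h
  simp only [sb, Prod.mk.injEq, Bool.not_eq_eq_eq_not, Bool.not_not] at h
  obtain ⟨⟨h1, h2⟩, h3, h4⟩ := h
  simp [h1, h2, h3, h4]

lemma xb_not {q n : ℕ} (s : Bool) (y : ZMod q × Fin n) : xb (!s, y) = - xb (s, y) := by
  cases s <;> simp [xb, ← Pi.single_neg]

lemma xb_sb {q n : ℕ} (p : Ob q n × Ob q n) : xb (sb p).1 - xb p.1 = xb (sb p).2 - xb p.2 := by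
  obtain ⟨⟨a, b⟩, ⟨c, d⟩⟩ := p
  simp only [sb, xb_not]; abel

lemma gb_sb {q n : ℕ} (p : Ob q n × Ob q n) :
    gb (sb p).1 - gb p.1 = gb (sb p).2 - gb p.2 + (p.2.2.1 - p.1.2.1) := by
  obtain ⟨⟨a, b⟩, ⟨c, d⟩⟩ := p
  cases a <;> cases c <;> simp [sb, gb] <;> ring

def cb {q n : ℕ} [NeZero q] (v : ZMod q × Fin n → ZMod 3) : ZMod q :=
  ∑ y, if v y = -1 then y.1 else 0

lemma cb_ok {q n : ℕ} [NeZero q] (p : Ob q n × Ob q n) (h : p.1.2.2 ≠ p.2.2.2) :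
    gb p.1 + gb p.2 = cb (xb p.1 + xb p.2) := by
  obtain ⟨⟨a, b⟩, ⟨c, d⟩⟩ := p
  have hbd : b ≠ d := fun e => h (by simp [e])
  have h0 : (0 : ZMod 3) ≠ -1 := by decide
  have h1 : (1 : ZMod 3) ≠ -1 := by decide
  unfold cb
  rw [Fintype.sum_eq_add b d hbd]
  · cases a <;> cases c <;> simp [xb, gb, hbd, hbd.symm, h1]
  · intro y hy
    simp [xb, hy.1, hy.2, h0]

lemma pr_kappa {q n : ℕ} [NeZero q] [NeZero n] (a : ZMod q) :
    Pr (fun p : Ob q n × Ob q n => a - (p.2.2.1 - p.1.2.1) ≠ 0) = 1 - 1 / q := by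
  rw [Pr_not (fun p : Ob q n × Ob q n => a - (p.2.2.1 - p.1.2.1) = 0), Pr_prod]
  have : ∀ s : Ob q n, Pr (fun b : Ob q n => a - (((s, b) : Ob q n × Ob q n).2.2.1 -
      (s, b).1.2.1) = 0) = 1 / q := fun s => by
    have h1 := (UP_fst (Ω := ZMod q) (Ω' := Fin n)).comp (UP_snd (Ω := Bool)) (a + s.2.1)
    rw [ZMod.card] at h1
    rw [← h1]
    exact Pr_congr fun b => by
      constructor
      · intro h; linear_combination -h
      · intro h; simp only at h ⊢; rw [h]; ring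
  simp only [this, sum_const, card_univ, nsmul_eq_mul]
  have : (Fintype.card (Ob q n) : ℝ) ≠ 0 := by simp [NeZero.ne]
  field_simp

lemma gadget (q n : ℕ) [NeZero q] [NeZero n] (L : ℕ) :
    ∃ (Ω A : Type) (_ : Fintype Ω) (_ : Nonempty Ω) (_ : AddCommGroup A) (_ : Fintype A)
      (x : Ω → A) (g : Ω → ZMod q),
      (∀ a : ZMod q, ∃ π : Ω × Ω → Ω × Ω, Injective π ∧
        (∀ p, x (π p).1 - x p.1 = x (π p).2 - x p.2) ∧
        Pr (fun p => g (π p).1 - g p.1 ≠ g (π p).2 - g p.2 + a) ≤ (1 - 1 / (q : ℝ)) ^ L) ∧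
      ∃ γ : A → ZMod q, Pr (fun p : Ω × Ω => g p.1 + g p.2 ≠ γ (x p.1 + x p.2)) ≤ L / (n : ℝ) := by
  induction L with
  | zero =>
    refine ⟨Unit, Unit, inferInstance, inferInstance, inferInstance, inferInstance, fun _ => 0,
      fun _ => 0, fun a => ⟨id, injective_id, fun _ => rfl, ?_⟩, fun _ => 0, ?_⟩
    · rw [pow_zero, ← Pr_true (Ω := Unit × Unit)]; exact Pr_mono fun _ _ => trivial
    · rw [Pr_eq_zero (by simp)]; simp
  | succ L ih =>
    obtain ⟨Ω, A, _, _, _, _, x, g, h1, γ, h2⟩ := ih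
    have h3 : ∀ a : ZMod q, ∃ π : Ω × Ω → Ω × Ω, Injective π ∧
        (∀ p, x (π p).1 - x p.1 = x (π p).2 - x p.2) ∧
        Pr (fun p => g (π p).1 - g p.1 ≠ g (π p).2 - g p.2 + a) ≤
          (1 - 1 / (q : ℝ)) ^ L * ind (a ≠ 0) := fun a => by
      by_cases ha : a = 0
      · refine ⟨id, injective_id, fun _ => by simp, ?_⟩
        rw [Pr_eq_zero (by simp [ha]), ind_neg (by simp [ha]), mul_zero]
      · rw [ind_pos ha, mul_one]; exact h1 a
    choose π hπ1 hπ2 hπ3 using h3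
    let e := Equiv.prodProdProdComm (Ob q n) Ω (Ob q n) Ω
    refine ⟨Ob q n × Ω, (ZMod q × Fin n → ZMod 3) × A, inferInstance, inferInstance,
      inferInstance, inferInstance, fun ω => (xb ω.1, x ω.2), fun ω => gb ω.1 + g ω.2,
      fun a => ⟨fun p => e.symm (sb (e p).1,
        π (a - ((e p).1.2.2.1 - (e p).1.1.2.1)) (e p).2), ?_, ?_, ?_⟩,
      fun v => cb v.1 + γ v.2, ?_⟩
    · intro p p' h
      have h' := e.symm.injective h
      simp only [Prod.mk.injEq] at h'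
      have h4 := sb_inj h'.1
      rw [h4] at h'
      exact e.injective (Prod.ext h4 (hπ1 _ h'.2))
    · intro p
      refine Prod.ext (xb_sb (e p).1) (hπ2 _ (e p).2)
    · rw [← Pr_equiv e.symm, pow_succ]
      refine le_trans (Pr_prod_le _ _ _ fun s => le_trans (Pr_mono fun b hb => ?_)
        (hπ3 (a - (s.2.2.1 - s.1.2.1)))) (by rw [pr_kappa (n := n) a])
      intro hh; apply hb
      have := gb_sb s
      simp only [Equiv.apply_symm_apply]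
      simp only [e, Equiv.prodProdProdComm_symm, Equiv.prodProdProdComm_apply]
      linear_combination this + hh
    · have h5 : Pr (fun p : (Ob q n × Ω) × (Ob q n × Ω) => p.1.1.2.2 = p.2.1.2.2) ≤ 1 / n := by
        have hu : UP (fun ω : Ob q n × Ω => ω.1.2.2) :=
          ((UP_snd (Ω := ZMod q) (Ω' := Fin n)).comp (UP_snd (Ω := Bool))).comp UP_fst
        have := hu.prod.pr (fun p => p.1 = p.2)
        simp only at this
        rw [this]; simpa using Pr_diag (Ω := Fin n)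
      have h6 := (UP_snd (Ω := Ob q n) (Ω' := Ω)).prod.pr
        (fun p : Ω × Ω => g p.1 + g p.2 ≠ γ (x p.1 + x p.2))
      refine le_trans (Pr_mono fun p hp => ?_) ((Pr_or_le _ _).trans
        ((add_le_add h5 (h6.le.trans h2)).trans (le_of_eq (by push_cast; ring))))
      by_contra hh; push Not at hh; apply hp
      have := cb_ok (p.1.1, p.2.1) hh.1
      simp only [Prod.fst_add, Prod.snd_add] at this ⊢
      linear_combination this + hh.2

section defs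
variable {Ω A : Type} [Fintype Ω] [AddCommGroup A]

def Good (k : ℕ) (X : Ω → A) (u : A) (ε : ℝ) : Prop :=
  ∀ j : Fin k, ∃ π : (Fin k → Ω) → (Fin k → Ω), Injective π ∧
    Pr (fun ω => ¬ ∃ t, ∀ i, X (π ω i) = X (ω i) + t + if i = j then u else 0) ≤ ε

def Dec (X : Ω → A) (u : A) (h : ℕ) (ε : ℝ) : Prop :=
  ∃ D : A → ℕ, Pr (fun p : Ω × Ω => ¬ ∀ z : ℕ, z < h → D (X p.1 + X p.2 + z • u) = z) ≤ ε

def Sep (X : Ω → A) (u : A) (h : ℕ) : Prop :=
  ∀ ω ω' (z : ℕ), z < h → X ω = X ω' + z • u → ω = ω'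

def PairGood (X : Ω → A) (u : A) (ε : ℝ) : Prop :=
  ∃ π : Ω × Ω → Ω × Ω, Injective π ∧
    Pr (fun p => X (π p).1 - X p.1 ≠ X (π p).2 - X p.2 + u) ≤ ε

lemma Good.mono {k : ℕ} {X : Ω → A} {u : A} {ε ε' : ℝ} (h : Good k X u ε) (h' : ε ≤ ε') :
    Good k X u ε' := fun j => let ⟨π, h1, h2⟩ := h j; ⟨π, h1, h2.trans h'⟩

lemma Dec.mono {X : Ω → A} {u : A} {h : ℕ} {ε ε' : ℝ} (hh : Dec X u h ε) (h' : ε ≤ ε') :
    Dec X u h ε' := let ⟨D, h2⟩ := hh; ⟨D, h2.trans h'⟩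

end defs

lemma step1 (h : ℕ) {ε : ℝ} (hε : 0 < ε) :
    ∃ (Ω A : Type) (_ : Fintype Ω) (_ : Nonempty Ω) (_ : AddCommGroup A) (_ : Fintype A)
      (X : Ω → A) (u : A), PairGood X u ε ∧ Dec X u h ε := by
  have h0 : (0 : ℝ) ≤ 1 / ((h + 1 : ℕ) : ℝ) := by positivity
  have h1 : (0 : ℝ) < 1 / ((h + 1 : ℕ) : ℝ) := by positivity
  obtain ⟨L, hL⟩ := exists_pow_lt_of_lt_one hε (show 1 - 1 / ((h + 1 : ℕ) : ℝ) < 1 by linarith)
  obtain ⟨n, hn⟩ := exists_nat_gt (L / ε)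
  obtain ⟨Ω, A, _, _, _, _, x, g, h1, γ, h2⟩ := gadget (h + 1) (n + 1) L
  obtain ⟨π, p1, p2, p3⟩ := h1 1
  refine ⟨Ω, A × ZMod (h + 1), inferInstance, inferInstance, inferInstance, inferInstance,
    fun ω => (x ω, g ω), (0, 1), ⟨π, p1, le_trans (Pr_mono fun p hp => ?_) (p3.trans hL.le)⟩,
    fun v => (v.2 - γ v.1).val, le_trans (Pr_mono fun p hp => ?_) (h2.trans ?_)⟩
  · intro hh; apply hp
    exact Prod.ext (by simpa using p2 p) (by simpa using hh)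
  · intro hh; apply hp
    intro z hz
    simp only [Prod.fst_add, Prod.snd_add, Prod.smul_mk, smul_zero, add_zero, ← hh, nsmul_eq_mul,
      mul_one, add_sub_cancel_left]
    exact ZMod.val_cast_of_lt (by omega)
  · rw [div_lt_iff₀ hε] at hn
    rw [div_le_iff₀ (by positivity)]; push_cast; nlinarith

end Pool.Agent.H.Berg
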