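import Pool.Agent.H.MP_335725_an.B

open Finset Function

namespace Pool.Agent.H.Berg

variable {Ω A : Type} [Fintype Ω] [AddCommGroup A]

def X1 (D : ℕ) [NeZero D] (X : Ω → A) (s : Fin D × Ω × A) : ℤ × A :=
  if s.1 = 0 then (1, X s.2.1) else (0, s.2.2)

omit [Fintype Ω] in
lemma dil_aux (X : Ω → A) (u : A) {k D : ℕ} [NeZero D] (π : Ω × Ω → Ω × Ω) (hπ : Injective π)
    (j : Fin k) (τ : Fin k → Fin D) :
    ∃ (W : (Fin k → Ω) → (Fin k → Ω)) (c : (Fin k → Ω) → Fin k → A), Injective W ∧ ∀ ω,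
      (¬ ∃ q r, (j ≠ q ∧ j ≠ r ∧ q ≠ r) ∧ τ j = 0 ∧ τ q = 0 ∧ τ r = 0) →
      (¬ ∃ q, j ≠ q ∧ τ j = 0 ∧ τ q = 0 ∧
        X (π (ω j, ω q)).1 - X (ω j) ≠ X (π (ω j, ω q)).2 - X (ω q) + u) →
      ∃ t : A, ∀ i, (τ i = 0 → X (W ω i) = X (ω i) + t + if i = j then u else 0) ∧
        (τ i ≠ 0 → c ω i = t + if i = j then u else 0) := by
  by_cases hj : τ j = 0
  · by_cases hq : ∃ q, j ≠ q ∧ τ q = 0
    · obtain ⟨q, hq1, hq2⟩ := hq
      refine ⟨fun ω => update (update ω j (π (ω j, ω q)).1) q (π (ω j, ω q)).2,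
        fun ω _ => X (π (ω j, ω q)).2 - X (ω q), ?_, ?_⟩
      · intro ω ω' h
        have h1 := congrFun h j
        have h2 := congrFun h q
        simp only [update_self, update_of_ne hq1] at h1 h2
        have h3 := hπ (Prod.ext h1 h2)
        simp only [Prod.mk.injEq] at h3
        funext i
        by_cases hi : i = j
        · rw [hi, h3.1]
        by_cases hi' : i = q
        · rw [hi', h3.2]
        have h4 := congrFun h i
        simpa only [update_of_ne hi, update_of_ne hi'] using h4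
      · intro ω h1 h2
        refine ⟨X (π (ω j, ω q)).2 - X (ω q), fun i => ⟨fun hi => ?_, fun hi => ?_⟩⟩
        · by_cases hij : i = j
          · subst hij
            have : X (π (ω i, ω q)).1 - X (ω i) = X (π (ω i, ω q)).2 - X (ω q) + u := by
              by_contra hh; exact h2 ⟨q, hq1, hj, hq2, hh⟩
            simp only [update_of_ne hq1, update_self, if_true]
            rw [add_assoc, ← this]; abel
          · have hiq : i = q := by
              by_contra hh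
              exact h1 ⟨q, i, ⟨hq1, Ne.symm hij, Ne.symm hh⟩, hj, hq2, hi⟩
            subst hiq
            simp [hij]
        · have hij : i ≠ j := fun e => hi (e ▸ hj)
          simp [hij]
    · refine ⟨id, fun _ _ => -u, injective_id, fun ω _ _ => ⟨-u, fun i => ⟨fun hi => ?_,
        fun hi => ?_⟩⟩⟩
      · have hij : i = j := by
          by_contra hh; exact hq ⟨i, Ne.symm hh, hi⟩
        simp [hij]
      · have hij : i ≠ j := fun e => hi (e ▸ hj)
        simp [hij]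
  · refine ⟨id, fun _ i => if i = j then u else 0, injective_id, fun ω _ _ => ⟨0, fun i =>
      ⟨fun hi => ?_, fun _ => by simp⟩⟩⟩
    have hij : i ≠ j := fun e => hj (e ▸ hi)
    simp [hij]

lemma pr_sp [Nonempty Ω] [Fintype A] (D : ℕ) [NeZero D] :
    Pr (fun s : Fin D × Ω × A => s.1 = 0) = 1 / D := by
  have := UP_fst (Ω := Fin D) (Ω' := Ω × A) 0
  simpa using this

lemma pr_sp2 [Nonempty Ω] [Fintype A] (D : ℕ) [NeZero D] (E : Ω × Ω → Prop) :
    Pr (fun p : (Fin D × Ω × A) × (Fin D × Ω × A) =>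
      p.1.1 = 0 ∧ p.2.1 = 0 ∧ E (p.1.2.1, p.2.2.1)) = Pr E / D ^ 2 := by
  rw [← Pr_equiv (Equiv.prodProdProdComm (Fin D) (Ω × A) (Fin D) (Ω × A)).symm]
  have h1 := Pr_and_prod (fun p : Fin D × Fin D => p = (0, 0))
    (fun p : (Ω × A) × (Ω × A) => E (p.1.1, p.2.1))
  rw [Pr_single, (UP_fst (Ω := Ω) (Ω' := A)).prod.pr E] at h1
  refine Eq.trans (Pr_congr fun p => ?_) (h1.trans (by simp; ring))
  simp [Prod.ext_iff, and_assoc]

lemma dilute [Nonempty Ω] [Fintype A] {X : Ω → A} {u : A} (k D : ℕ) [NeZero D] {ε : ℝ}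
    (hε : 0 ≤ ε) (hp : PairGood X u ε) :
    Good k (X1 D X) (0, u) (k * (ε / D ^ 2) + k * (k * (1 / D) ^ 3)) := by
  obtain ⟨π, hπ, hb⟩ := hp
  intro j
  choose W c hW hc using dil_aux X u π hπ j (D := D)
  refine ⟨fun s i => ((s i).1, W (fun i => (s i).1) (fun i => (s i).2.1) i,
    (s i).2.2 + c (fun i => (s i).1) (fun i => (s i).2.1) i), ?_, ?_⟩
  · intro s s' h
    have h1 : (fun i => (s i).1) = fun i => (s' i).1 := funext fun i => congrArg (·.1) (congrFun h i)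
    have h2 : (fun i => (s i).2.1) = fun i => (s' i).2.1 := by
      apply hW (fun i => (s i).1)
      funext i
      have := congrArg (·.2.1) (congrFun h i)
      simp only at this
      rw [this, h1]
    funext i
    have h3 := congrArg (·.2.2) (congrFun h i)
    simp only [h1, h2, add_left_inj] at h3
    exact Prod.ext (congrFun h1 i) (Prod.ext (congrFun h2 i) h3)
  · have e1 : Pr (fun s : Fin k → Fin D × Ω × A => ∃ q, j ≠ q ∧ (s j).1 = 0 ∧ (s q).1 = 0 ∧
        X (π ((s j).2.1, (s q).2.1)).1 - X (s j).2.1 ≠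
          X (π ((s j).2.1, (s q).2.1)).2 - X (s q).2.1 + u) ≤ k * (ε / D ^ 2) := by
      refine (Pr_exists_le' _ (ε / D ^ 2) fun q => ?_).trans (by simp)
      by_cases hq : j = q
      · rw [Pr_eq_zero (by simp [hq])]; positivity
      · have h1 := (UP_pair (Ω := Fin D × Ω × A) hq).pr (fun p => p.1.1 = 0 ∧ p.2.1 = 0 ∧
          (fun p : Ω × Ω => X (π p).1 - X p.1 ≠ X (π p).2 - X p.2 + u) (p.1.2.1, p.2.2.1))
        have h2 := h1.trans (pr_sp2 D
          (fun p : Ω × Ω => X (π p).1 - X p.1 ≠ X (π p).2 - X p.2 + u))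
        refine le_trans (Pr_mono fun s hs => hs.2) (h2.le.trans ?_)
        gcongr
    have e2 : Pr (fun s : Fin k → Fin D × Ω × A => ∃ q r, (j ≠ q ∧ j ≠ r ∧ q ≠ r) ∧
        (s j).1 = 0 ∧ (s q).1 = 0 ∧ (s r).1 = 0) ≤ k * (k * (1 / D) ^ 3) := by
      refine (Pr_exists_le' _ (k * (1 / D) ^ 3) fun q => ?_).trans (by simp)
      refine (Pr_exists_le' _ ((1 / D) ^ 3) fun r => ?_).trans (by simp)
      by_cases hq : j ≠ q ∧ j ≠ r ∧ q ≠ r
      · have h1 := Pr_eval3 hq.1 hq.2.1 hq.2.2 (fun s : Fin D × Ω × A => s.1 = 0)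
        rw [pr_sp] at h1
        exact le_trans (Pr_mono fun s hs => hs.2) h1.le
      · rw [Pr_eq_zero (fun s hs => hq hs.1)]; positivity
    refine le_trans (Pr_mono fun s hs => ?_) ((Pr_or_le _ _).trans (add_le_add e1 e2))
    by_contra hh
    rw [not_or] at hh
    obtain ⟨t, ht⟩ := hc (fun i => (s i).1) (fun i => (s i).2.1) hh.2 hh.1
    refine hs ⟨(0, t), fun i => ?_⟩
    by_cases hi : (s i).1 = 0
    · simp only [X1, hi, if_true, (ht i).1 hi]
      split_ifs <;> simp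
    · simp only [X1, hi, if_false, (ht i).2 hi]
      split_ifs <;> simp [add_assoc]

lemma good_pi [Nonempty Ω] {X : Ω → A} {u : A} {k : ℕ} {ε : ℝ} (h : Good k X u ε) (m : ℕ) :
    Good k (fun (ω : Fin m → Ω) c => X (ω c)) (fun _ => u) (m * ε) := by
  intro j
  obtain ⟨π, h1, h2⟩ := h j
  refine ⟨fun s i c => π (fun i => s i c) i, ?_, ?_⟩
  · intro s s' hs
    funext i c
    have : (fun i => s i c) = fun i => s' i c :=
      h1 (funext fun i => congrFun (congrFun hs i) c)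
    exact congrFun this i
  · have e : ∀ c : Fin m, Pr (fun s : Fin k → Fin m → Ω => ¬ ∃ t, ∀ i,
        X (π (fun i => s i c) i) = X (s i c) + t + if i = j then u else 0) ≤ ε := fun c => by
      have hu : UP (fun ω : Fin m → Ω => ω c) := fun a => by
        rw [Pr_eval c (fun x => x = a), Pr_single]
      exact ((hu.pi (Fin k)).pr _).le.trans h2
    refine le_trans (Pr_mono fun s hs => ?_) ((Pr_exists_le' _ ε e).trans (by simp))
    by_contra hh
    push Not at hh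
    choose t ht using hh
    refine hs ⟨t, fun i => funext fun c => ?_⟩
    refine (ht c i).trans ?_
    split_ifs <;> simp

lemma dec_pi [Nonempty Ω] [Fintype A] {X : Ω → A} {u : A} {h : ℕ} {ε : ℝ} (hd : Dec X u h ε)
    (D : ℕ) [NeZero D] (m : ℕ) :
    Dec (fun (ω : Fin m → Fin D × Ω × A) c => X1 D X (ω c)) (fun _ => (0, u)) h
      ((1 - 1 / D ^ 2) ^ m + m * (ε / D ^ 2)) := by
  classical
  obtain ⟨F, hF⟩ := hd
  refine ⟨fun v => if hv : ∃ c, (v c).1 = 2 then F (v hv.choose).2 else 0, ?_⟩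
  let e : (Fin m → (Fin D × Ω × A) × (Fin D × Ω × A)) ≃ _ := Equiv.arrowProdEquivProdArrow _ _ _
  rw [← Pr_equiv e]
  have e1 : Pr (fun s : Fin m → (Fin D × Ω × A) × (Fin D × Ω × A) =>
      ∀ c, ¬ ((s c).1.1 = 0 ∧ (s c).2.1 = 0 ∧ True)) = (1 - 1 / D ^ 2) ^ m := by
    rw [Pr_pi (fun _ (p : (Fin D × Ω × A) × (Fin D × Ω × A)) => ¬ (p.1.1 = 0 ∧ p.2.1 = 0 ∧ True)),
      Pr_not, pr_sp2 D (fun _ => True), Pr_true]
    simp
  have e2 : ∀ c : Fin m, Pr (fun s : Fin m → (Fin D × Ω × A) × (Fin D × Ω × A) =>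
      (s c).1.1 = 0 ∧ (s c).2.1 = 0 ∧ ¬ ∀ z : ℕ, z < h →
        F (X (s c).1.2.1 + X (s c).2.2.1 + z • u) = z) ≤ ε / D ^ 2 := fun c => by
    rw [Pr_eval c (fun p : (Fin D × Ω × A) × (Fin D × Ω × A) => p.1.1 = 0 ∧ p.2.1 = 0 ∧
      ¬ ∀ z : ℕ, z < h → F (X p.1.2.1 + X p.2.2.1 + z • u) = z),
      pr_sp2 D (fun p => ¬ ∀ z : ℕ, z < h → F (X p.1 + X p.2 + z • u) = z)]
    gcongr
  refine le_trans (Pr_mono fun s hs => ?_) ((Pr_or_le _ _).trans
    (add_le_add e1.le ((Pr_exists_le' _ _ e2).trans (by simp))))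
  by_contra hh
  push Not at hh
  obtain ⟨⟨c, hc1, hc2, -⟩, h2⟩ := hh
  apply hs
  intro z hz
  have key : ∀ c, ((fun c => X1 D X ((e s).1 c)) + (fun c => X1 D X ((e s).2 c)) +
      z • (fun _ : Fin m => ((0 : ℤ), u))) c = X1 D X (s c).1 + X1 D X (s c).2 + (0, z • u) := by
    intro c; simp [e]
  have hv : ∃ c, (((fun c => X1 D X ((e s).1 c)) + (fun c => X1 D X ((e s).2 c)) +
      z • (fun _ : Fin m => ((0 : ℤ), u))) c).1 = 2 := ⟨c, by rw [key]; simp [X1, hc1, hc2]⟩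
  simp only [dif_pos hv]
  have h3 := hv.choose_spec
  rw [key] at h3 ⊢
  generalize hv.choose = d at *
  by_cases a1 : (s d).1.1 = 0 <;> by_cases a2 : (s d).2.1 = 0 <;>
    simp [X1, a1, a2] at h3 ⊢
  exact h2 d a1 a2 z hz

lemma step3 (h k : ℕ) {ε : ℝ} (hε : 0 < ε) :
    ∃ (Ω A : Type) (_ : Fintype Ω) (_ : Nonempty Ω) (_ : AddCommGroup A)
      (X : Ω → A) (u : A), Good k X u ε ∧ Dec X u h ε := by
  obtain ⟨C, hC⟩ := exists_nat_gt (2 / ε)
  have hC0 : (0 : ℝ) < C := lt_trans (by positivity) hC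
  obtain ⟨D, hD⟩ := exists_nat_gt (2 * C * k ^ 2 / ε)
  obtain ⟨Ω, A, _, _, _, _, X, u, h1, h2⟩ := step1 h (ε := ε / (2 * C * (k + 1))) (by positivity)
  have hD1 : (0 : ℝ) < (D + 1 : ℕ) := by positivity
  refine ⟨_, _, inferInstance, inferInstance, inferInstance, _, _,
    (good_pi (dilute k (D + 1) (by positivity) h1) (C * (D + 1) ^ 2)).mono ?_,
    (dec_pi h2 (D + 1) (C * (D + 1) ^ 2)).mono ?_⟩
  · have : ((C * (D + 1) ^ 2 : ℕ) : ℝ) * (k * (ε / (2 * C * (k + 1)) / ((D + 1 : ℕ) : ℝ) ^ 2) +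
        k * (k * (1 / ((D + 1 : ℕ) : ℝ)) ^ 3)) = ε / 2 * (k / (k + 1)) + C * k ^ 2 / (D + 1) := by
      push_cast; field_simp
    rw [this]
    have a1 : (k : ℝ) / (k + 1) ≤ 1 := by rw [div_le_one (by positivity)]; linarith
    have a2 : (C : ℝ) * k ^ 2 / (D + 1) ≤ ε / 2 := by
      rw [div_lt_iff₀ hε] at hD
      rw [div_le_iff₀ (by positivity)]; nlinarith
    nlinarith
  · have a1 : ((C * (D + 1) ^ 2 : ℕ) : ℝ) * (ε / (2 * C * (k + 1)) / ((D + 1 : ℕ) : ℝ) ^ 2) =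
        ε / 2 * (1 / (k + 1)) := by
      push_cast; field_simp
    have a2 : (1 : ℝ) / (k + 1) ≤ 1 := by
      rw [div_le_one (by positivity)]; linarith [Nat.cast_nonneg (α := ℝ) k]
    have a3 : (1 - 1 / ((D + 1 : ℕ) : ℝ) ^ 2) ^ (C * (D + 1) ^ 2) ≤ Real.exp (-C) := by
      have b1 : (1 - 1 / ((D + 1 : ℕ) : ℝ) ^ 2) ≤ Real.exp (-(1 / ((D + 1 : ℕ) : ℝ) ^ 2)) := by
        linarith [Real.add_one_le_exp (-(1 / ((D + 1 : ℕ) : ℝ) ^ 2))]
      have b2 : 0 ≤ (1 - 1 / ((D + 1 : ℕ) : ℝ) ^ 2) := by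
        rw [sub_nonneg, div_le_one (by positivity)]
        exact one_le_pow₀ (by simp)
      refine (pow_le_pow_left₀ b2 b1 _).trans (le_of_eq ?_)
      rw [← Real.exp_nat_mul]; congr 1; push_cast; field_simp
    have a4 : Real.exp (-C) ≤ ε / 2 := by
      rw [Real.exp_neg, inv_le_comm₀ (Real.exp_pos _) (by positivity), inv_div]
      linarith [Real.add_one_le_exp (C : ℝ)]
    rw [a1]; nlinarith

end Pool.Agent.H.Berg
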