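import Pool.Agent.H.MP_335725_an.C

open Finset Function

namespace Pool.Agent.H.Berg

variable {Ω A : Type} [Fintype Ω] [AddCommGroup A]

lemma hide [Nonempty Ω] {X : Ω → A} {u : A} {h k : ℕ} {ε ε' η : ℝ} (hη : 0 < η)
    (hg : Good k X u ε) (hd : Dec X u h ε') :
    ∃ (Ω' A' : Type) (_ : Fintype Ω') (_ : Nontrivial Ω') (_ : AddCommGroup A')
      (X' : Ω' → A') (u' : A'), Good k X' u' (ε + η) ∧ Dec X' u' h ε' ∧ Sep X' u' h := by
  classical
  obtain ⟨β, hβ⟩ := exists_nat_gt (k ^ 2 / η)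
  set M := Fintype.card Ω with hM
  haveI : NeZero M := ⟨Fintype.card_ne_zero⟩
  obtain ⟨e⟩ : Nonempty (ZMod M ≃ Ω) := Fintype.card_eq.1 (ZMod.card M)
  have hu : UP (fun s : Fin (β + 2) × (Fin (β + 2) → ZMod M) => e (s.2 s.1)) := fun a => by
    rw [Pr_prod]
    have : ∀ b : Fin (β + 2), Pr (fun f : Fin (β + 2) → ZMod M =>
        e (((b, f) : Fin (β + 2) × (Fin (β + 2) → ZMod M)).2 (b, f).1) = a) =
        1 / Fintype.card Ω := fun b => by
      rw [← Pr_single a, ← Pr_equiv e (fun x => x = a), ← Pr_eval b (fun z => e z = a)]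
    simp only [this, sum_const, card_univ, nsmul_eq_mul]
    have : (Fintype.card (Fin (β + 2)) : ℝ) ≠ 0 := by simp; positivity
    field_simp
  refine ⟨Fin (β + 2) × (Fin (β + 2) → ZMod M), A × ℤ × (Fin (β + 2) → ZMod M), inferInstance,
    inferInstance, inferInstance, fun s => (X (e (s.2 s.1)), ((s.1 : ℕ) : ℤ), s.2), (u, 0, 0),
    fun j => ?_, ?_, ?_⟩
  · obtain ⟨π, h1, h2⟩ := hg j
    let T : (Fin k → Fin (β + 2)) → (Fin k → Ω) → Fin (β + 2) → ZMod M := fun B ω =>
      if Injective B then ∑ i, Pi.single (B i) (e.symm (π ω i) - e.symm (ω i)) else 0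
    have hT : ∀ B ω i, Injective B → T B ω (B i) = e.symm (π ω i) - e.symm (ω i) := by
      intro B ω i hB
      simp only [T, if_pos hB, Finset.sum_apply]
      rw [sum_eq_single i (fun l _ hl => Pi.single_eq_of_ne (fun hh => hl (hB hh).symm) _)
        (by simp), Pi.single_eq_same]
    refine ⟨fun s i => ((s i).1, (s i).2 + T (fun i => (s i).1) (fun i => e ((s i).2 (s i).1))),
      ?_, ?_⟩
    · intro s s' hs
      have a1 : (fun i => (s i).1) = fun i => (s' i).1 :=
        funext fun i => congrArg (·.1) (congrFun hs i)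
      have a2 : ∀ i, (s i).2 + T (fun i => (s i).1) (fun i => e ((s i).2 (s i).1)) =
          (s' i).2 + T (fun i => (s' i).1) (fun i => e ((s' i).2 (s' i).1)) :=
        fun i => congrArg (·.2) (congrFun hs i)
      have a3 : T (fun i => (s i).1) (fun i => e ((s i).2 (s i).1)) =
          T (fun i => (s' i).1) (fun i => e ((s' i).2 (s' i).1)) := by
        by_cases hB : Injective (fun i => (s i).1)
        · have hB' : Injective (fun i => (s' i).1) := a1 ▸ hB
          have : (fun i => e ((s i).2 (s i).1)) = fun i => e ((s' i).2 (s' i).1) := by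
            apply h1; funext i
            have b1 := congrFun (a2 i) (s i).1
            have b2 := hT _ (fun i => e ((s i).2 (s i).1)) i hB
            have b3 := hT _ (fun i => e ((s' i).2 (s' i).1)) i hB'
            have b4 : (s i).1 = (s' i).1 := congrFun a1 i
            simp only [Pi.add_apply, Equiv.symm_apply_apply] at b1 b2 b3
            rw [b2, b4, b3] at b1
            apply e.symm.injective
            linear_combination b1
          rw [this, a1]
        · have hB' : ¬ Injective (fun i => (s' i).1) := a1 ▸ hB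
          simp only [T, if_neg hB, if_neg hB']
      funext i
      refine Prod.ext (congrFun a1 i) ?_
      have := a2 i
      rwa [a3, add_left_inj] at this
    · have e1 : Pr (fun s : Fin k → Fin (β + 2) × (Fin (β + 2) → ZMod M) =>
          ∃ i l, i ≠ l ∧ (s i).1 = (s l).1) ≤ η := by
        refine (Pr_exists_le' _ (k * (1 / (β + 2))) fun i => ?_).trans ?_
        · refine (Pr_exists_le' _ (1 / (β + 2)) fun l => ?_).trans (by simp)
          by_cases hil : i = l
          · rw [Pr_eq_zero (by simp [hil])]; positivity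
          · have b1 := ((UP_fst (Ω := Fin (β + 2)) (Ω' := Fin (β + 2) → ZMod M)).prod.comp
              (UP_pair hil)).pr (fun p => p.1 = p.2)
            refine le_trans (Pr_mono fun s hs => hs.2) (b1.le.trans ?_)
            simpa using Pr_diag (Ω := Fin (β + 2))
        · rw [div_lt_iff₀ hη] at hβ
          rw [Fintype.card_fin, ← mul_assoc, mul_one_div, div_le_iff₀ (by positivity)]
          nlinarith
      have e2 := ((hu.pi (Fin k)).pr (fun ω => ¬ ∃ t, ∀ i, X (π ω i) =
        X (ω i) + t + if i = j then u else 0)).le.trans h2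
      refine le_trans (Pr_mono fun s hs => ?_) ((Pr_or_le _ _).trans (add_le_add e2 e1))
      by_contra hh
      push Not at hh
      obtain ⟨⟨t, ht⟩, h3⟩ := hh
      have hB : Injective (fun i => (s i).1) := fun i l hil => by
        by_contra hne; exact h3 i l hne hil
      refine hs ⟨(t, 0, T (fun i => (s i).1) (fun i => e ((s i).2 (s i).1))), fun i => ?_⟩
      have b2 := hT _ (fun i => e ((s i).2 (s i).1)) i hB
      simp only [Pi.add_apply, b2, Equiv.symm_apply_apply, add_sub_cancel,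
        Equiv.apply_symm_apply, ht i]
      split_ifs <;> simp
  · obtain ⟨F, hF⟩ := hd
    refine ⟨fun v => F v.1, le_trans (le_of_eq ?_) ((hu.prod.pr _).le.trans hF)⟩
    exact Pr_congr fun p => by simp
  · intro s s' z _ hs
    simp only [Prod.smul_mk, smul_zero, Prod.mk_add_mk, add_zero, Prod.mk.injEq,
      Nat.cast_inj] at hs
    exact Prod.ext (Fin.ext hs.2.1) hs.2.2

lemma pr_edge (Y C : ℕ) [NeZero Y] :
    Pr (fun y : ZMod Y => ¬ (C ≤ y.val ∧ y.val + C < Y)) ≤ 2 * C / Y := by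
  refine le_trans (Pr_mono (F := fun y => ∃ a : Fin (2 * C), y = ((a : ℕ) : ZMod Y) - C)
    fun y hy => ?_) ((Pr_exists_le' _ (1 / Y) fun a => ?_).trans (by simp [div_eq_mul_inv]))
  · have hY := ZMod.val_lt y
    by_cases h1 : C ≤ y.val
    · have h2 : Y ≤ y.val + C := by by_contra hh; exact hy ⟨h1, by omega⟩
      refine ⟨⟨y.val + C - Y, by omega⟩, ?_⟩
      simp [Nat.cast_sub h2]
    · exact ⟨⟨y.val + C, by omega⟩, by simp⟩
  · rw [Pr_single, ZMod.card]

lemma val_add_int {Y C : ℕ} [NeZero Y] (y : ZMod Y) (c : ℤ) (hc : |c| ≤ C) (h1 : C ≤ y.val)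
    (h2 : y.val + C < Y) : ((y + (c : ZMod Y)).val : ℤ) = y.val + c := by
  have : y + (c : ZMod Y) = (((y.val : ℤ) + c : ℤ) : ZMod Y) := by simp
  rw [this, ZMod.val_intCast]
  have := abs_le.1 hc
  exact Int.emod_eq_of_lt (by omega) (by omega)

lemma lift [Nontrivial Ω] {X : Ω → A} {u : A} {h k : ℕ} {ε ε' η : ℝ} (hη : 0 < η) (hε : ε' < 1)
    (hg : Good k X u ε) (hd : Dec X u h ε') (hs : Sep X u h) :
    ∃ (Ω' : Type) (_ : Fintype Ω') (_ : Nontrivial Ω') (X' : Ω' → ℤ × (Ω → ℤ)),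
      Good k X' (1, 0) (ε + η) ∧ Dec X' (1, 0) h ε' ∧ Sep X' (1, 0) h := by
  classical
  let p : (ℤ × (Ω → ℤ)) →ₗ[ℤ] A :=
    LinearMap.coprod (LinearMap.toSpanSingleton ℤ A u) (Fintype.linearCombination ℤ X)
  let E : Ω → ℤ × (Ω → ℤ) := fun ω => (0, Pi.single ω 1)
  have pE : ∀ ω, p (E ω) = X ω := fun ω => by simp [p, E]
  have pu : p (1, 0) = u := by simp [p]
  obtain ⟨r, ι, i1, i2, i3⟩ : ∃ (r : ℕ) (ι : (Fin r → ℤ) →ₗ[ℤ] (ℤ × (Ω → ℤ))), Injective ι ∧
      (∀ c, p (ι c) = 0) ∧ ∀ v, p v = 0 → ∃ c, ι c = v := by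
    let b := Module.finBasis ℤ (LinearMap.ker p)
    refine ⟨_, (LinearMap.ker p).subtype ∘ₗ b.equivFun.symm.toLinearMap,
      Subtype.val_injective.comp b.equivFun.symm.injective, fun c => (b.equivFun.symm c).2,
      fun v hv => ⟨b.equivFun ⟨v, hv⟩, by simp⟩⟩
  have i4 : ∀ v, ∃ c, p v = 0 → ι c = v := fun v => by
    by_cases hv : p v = 0
    · obtain ⟨c, hc⟩ := i3 v hv; exact ⟨c, fun _ => hc⟩
    · exact ⟨0, fun h => absurd h hv⟩
  choose σ hσ using i4
  choose π h1 h2 using hg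
  let tt : Fin k → (Fin k → Ω) → ℤ × (Ω → ℤ) := fun j ω => E (π j ω j) - E (ω j) - (1, 0)
  let c : Fin k → (Fin k → Ω) → Fin k → Fin r → ℤ := fun j ω i =>
    σ (E (ω i) + tt j ω + (if i = j then (1, 0) else 0) - E (π j ω i))
  obtain ⟨C, hC⟩ : ∃ C : ℕ, ∀ j ω i l, |c j ω i l| ≤ C := by
    obtain ⟨C, hC⟩ := Finite.exists_le
      (fun a : Fin k × (Fin k → Ω) × Fin k × Fin r => (c a.1 a.2.1 a.2.2.1 a.2.2.2).natAbs)
    refine ⟨C, fun j ω i l => ?_⟩
    have := hC (j, ω, i, l)
    rw [Int.abs_eq_natAbs]; exact_mod_cast this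
  obtain ⟨Y, hY⟩ := exists_nat_gt (k * (r * (2 * C)) / η)
  refine ⟨Ω × (Fin r → ZMod (Y + 1)), inferInstance, inferInstance,
    fun s => E s.1 + ι (fun l => (s.2 l).val), fun j => ⟨fun s i => (π j (fun i => (s i).1) i,
      fun l => (s i).2 l + (c j (fun i => (s i).1) i l : ℤ)), ?_, ?_⟩, ?_, ?_⟩
  · intro s s' hs
    have a1 : (fun i => (s i).1) = fun i => (s' i).1 :=
      h1 j (funext fun i => congrArg (·.1) (congrFun hs i))
    funext i
    refine Prod.ext (congrFun a1 i) (funext fun l => ?_)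
    have := congrFun (congrArg (·.2) (congrFun hs i)) l
    simpa only [a1, add_left_inj] using this
  · have e1 : Pr (fun s : Fin k → Ω × (Fin r → ZMod (Y + 1)) =>
        ∃ i l, ¬ (C ≤ ((s i).2 l).val ∧ ((s i).2 l).val + C < Y + 1)) ≤ η := by
      refine (Pr_exists_le' _ (r * (2 * C / (Y + 1 : ℕ))) fun i => ?_).trans ?_
      · refine (Pr_exists_le' _ (2 * C / (Y + 1 : ℕ)) fun l => ?_).trans (by simp)
        rw [Pr_eval i (fun s : Ω × (Fin r → ZMod (Y + 1)) =>
          ¬ (C ≤ (s.2 l).val ∧ (s.2 l).val + C < Y + 1)),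
          Pr_snd (fun s : Fin r → ZMod (Y + 1) => ¬ (C ≤ (s l).val ∧ (s l).val + C < Y + 1)),
          Pr_eval l (fun s : ZMod (Y + 1) => ¬ (C ≤ s.val ∧ s.val + C < Y + 1))]
        exact pr_edge _ _
      · rw [div_lt_iff₀ hη] at hY
        rw [Fintype.card_fin, ← mul_div_assoc, ← mul_div_assoc, div_le_iff₀ (by positivity)]
        push_cast; nlinarith
    have e2 := (((UP_fst (Ω := Ω) (Ω' := Fin r → ZMod (Y + 1))).pi (Fin k)).pr
      (fun ω => ¬ ∃ t, ∀ i, X (π j ω i) = X (ω i) + t + if i = j then u else 0)).le.trans (h2 j)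
    refine le_trans (Pr_mono fun s hs => ?_) ((Pr_or_le _ _).trans (add_le_add e2 e1))
    by_contra hh
    push Not at hh
    obtain ⟨⟨t, ht⟩, h3⟩ := hh
    refine hs ⟨tt j (fun i => (s i).1), fun i => ?_⟩
    have b1 : (fun l => (((s i).2 l + (c j (fun i => (s i).1) i l : ℤ)).val : ℤ)) =
        (fun l => (((s i).2 l).val : ℤ)) + c j (fun i => (s i).1) i :=
      funext fun l => val_add_int _ _ (hC _ _ _ _) (h3 i l).1 (h3 i l).2
    have b2 : ι (c j (fun i => (s i).1) i) = _ := hσ _ (by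
      have := ht j
      simp only [tt, map_sub, map_add, pE, pu, ht i, this, apply_ite p, map_zero, if_true]
      abel)
    simp only [b1, map_add, b2]
    abel
  · obtain ⟨F, hF⟩ := hd
    refine ⟨fun v => F (p v), le_trans (le_of_eq ?_)
      (((UP_fst (Ω := Ω) (Ω' := Fin r → ZMod (Y + 1))).prod.pr _).le.trans hF)⟩
    exact Pr_congr fun q => by simp only [map_add, map_nsmul, pE, pu, i2, add_zero]
  · intro s s' z hz h3
    have a1 := congrArg p h3
    simp only [map_add, map_nsmul, pE, pu, i2, add_zero] at a1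
    have a2 := hs _ _ z hz a1
    obtain ⟨F, hF⟩ := hd
    obtain ⟨q, hq⟩ := exists_not_of_Pr_lt (hF.trans_lt hε)
    rw [not_not] at hq
    rw [a2, left_eq_add] at a1
    have a3 := hq z hz
    have a4 := hq 0 (by omega)
    rw [a1] at a3
    rw [zero_smul, a3] at a4
    subst a4
    simp only [a2, zero_smul, add_zero, add_right_inj] at h3
    refine Prod.ext a2 (funext fun l => ZMod.val_injective _ ?_)
    exact_mod_cast congrFun (i1 h3) l

lemma exists_rho {ι : Type} (F : Finset (ι → ℤ)) :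
    ∃ ρ : (ι → ℤ) →+ ℤ, ∀ v ∈ F, ρ v = 0 → v = 0 := by
  classical
  induction F using Finset.induction with
  | empty => exact ⟨0, by simp⟩
  | insert v F _ ih =>
    obtain ⟨ρ, hρ⟩ := ih
    by_cases h : ρ v = 0 → v = 0
    · exact ⟨ρ, by simpa [or_imp, forall_and] using ⟨h, hρ⟩⟩
    · push Not at h
      obtain ⟨i, hi⟩ := Function.ne_iff.1 h.2
      obtain ⟨N, hN⟩ := (F.image fun w => |w i|).bddAbove
      refine ⟨(N + 1) • ρ + Pi.evalAddMonoidHom _ i, fun w hw h0 => ?_⟩
      simp only [AddMonoidHom.add_apply, AddMonoidHom.smul_apply, smul_eq_mul,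
        Pi.evalAddMonoidHom_apply] at h0
      rcases mem_insert.1 hw with rfl | hw
      · rw [h.1] at h0; exact absurd (by simpa using h0) hi
      · apply hρ w hw
        have h1 : |w i| ≤ N := hN (by simpa using ⟨w, hw, rfl⟩)
        by_contra h2
        have h3 : 1 ≤ |ρ w| := Int.one_le_abs h2
        have h4 : w i = -((N + 1) * ρ w) := by linarith
        have h5 := (abs_nonneg (w i)).trans h1
        rw [h4, abs_neg, abs_mul, abs_of_nonneg (by linarith : 0 ≤ N + 1)] at h1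
        nlinarith

lemma exists_emb {ι κ : Type} [Fintype κ] (w : κ → ℤ × (ι → ℤ)) :
    ∃ f : ℤ × (ι → ℤ) →+ ℤ, f (1, 0) = 1 ∧ ∀ a b, f (w a) = f (w b) → w a = w b := by
  classical
  obtain ⟨ρ, hρ⟩ := exists_rho (univ.image fun a : κ × κ => (w a.1 - w a.2).2)
  obtain ⟨N, hN⟩ := Finite.exists_le (fun a : κ × κ => |(w a.1 - w a.2).1|)
  refine ⟨AddMonoidHom.fst _ _ + (N + 1) • ρ.comp (AddMonoidHom.snd _ _), by simp,
    fun a b hab => ?_⟩
  rw [← sub_eq_zero, ← map_sub] at hab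
  simp only [AddMonoidHom.add_apply, AddMonoidHom.coe_fst, AddMonoidHom.smul_apply,
    AddMonoidHom.coe_comp, AddMonoidHom.coe_snd, comp_apply, smul_eq_mul] at hab
  have h1 := hN (a, b)
  have h0 : ρ (w a - w b).2 = 0 := by
    by_contra h2
    have h3 : 1 ≤ |ρ (w a - w b).2| := Int.one_le_abs h2
    have h4 : (w a - w b).1 = -((N + 1) * ρ (w a - w b).2) := by linarith
    simp only at h1
    have h5 := (abs_nonneg (w a - w b).1).trans h1
    rw [h4, abs_neg, abs_mul, abs_of_nonneg (by linarith : 0 ≤ N + 1)] at h1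
    nlinarith
  have h6 := hρ _ (mem_image.2 ⟨(a, b), mem_univ _, rfl⟩) h0
  rw [← sub_eq_zero]
  exact Prod.ext (by rw [h0] at hab; simpa using hab) h6

lemma Good.iter {X : Ω → A} {u : A} {k : ℕ} {ε : ℝ} (hg : Good k X u ε) (n : ℕ) :
    ∀ b : Fin k → ℕ, ∑ i, b i = n → ∃ π : (Fin k → Ω) → (Fin k → Ω), Injective π ∧
      Pr (fun ω => ¬ ∃ t, ∀ i, X (π ω i) = X (ω i) + t + b i • u) ≤ n * ε := by
  induction n with
  | zero =>
    intro b hb
    have : ∀ i, b i = 0 := fun i => by simpa using (sum_eq_zero_iff.1 hb) i (mem_univ i)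
    refine ⟨id, injective_id, ?_⟩
    rw [Pr_eq_zero (fun ω hω => hω ⟨0, by simp [this]⟩)]; simp
  | succ n ih =>
    intro b hb
    obtain ⟨j, hj⟩ : ∃ j, b j ≠ 0 := by
      by_contra hh; push Not at hh; simp [hh] at hb
    have hb' : ∀ i, b i = (b i - if i = j then 1 else 0) + if i = j then 1 else 0 := fun i => by
      split_ifs with hi
      · subst hi; omega
      · simp
    obtain ⟨π, h1, h2⟩ := ih (fun i => b i - if i = j then 1 else 0) (by
      rw [sum_congr rfl fun i _ => hb' i, sum_add_distrib] at hb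
      simp only [sum_ite_eq', mem_univ, if_true] at hb
      omega)
    obtain ⟨π', h3, h4⟩ := hg j
    refine ⟨π' ∘ π, h3.comp h1, le_trans (Pr_mono fun ω hω => ?_) ((Pr_or_le _ _).trans
      ((add_le_add h2 ((Pr_inj h1 _).le.trans h4)).trans (le_of_eq (by push_cast; ring))))⟩
    by_contra hh
    push Not at hh
    obtain ⟨⟨t, ht⟩, t', ht'⟩ := hh
    refine hω ⟨t + t', fun i => ?_⟩
    rw [comp_apply, ht' i, ht i]
    conv_rhs => rw [hb' i, add_smul]
    split_ifs <;> simp <;> abel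

theorem level (h k : ℕ) {ε : ℝ} (hε : 0 < ε) (hε1 : ε < 1) :
    ∃ (M : ℕ) (d : Fin M → ℕ), 2 ≤ M ∧ (∀ r, 1 ≤ d r) ∧
      (∀ r r' (z : ℕ), z < h → d r = d r' + z → r = r') ∧
      (∀ b : Fin k → ℕ, (∀ i, b i < h) → ∃ π : (Fin k → Fin M) → (Fin k → Fin M), Injective π ∧
        Pr (fun ω => ¬ ∃ t : ℤ, ∀ i, (d (π ω i) : ℤ) = d (ω i) + t + b i) ≤ ε) ∧
      ∃ D : ℕ → ℕ, Pr (fun p : Fin M × Fin M =>
        ¬ ∀ z : ℕ, z < h → D (d p.1 + d p.2 + z) = z) ≤ ε := by
  classical
  set δ : ℝ := ε / (3 * (k * h + 1)) with hδ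
  have hδ0 : 0 < δ := by positivity
  have hδ1 : (k * h + 1) * (δ + δ + δ) = ε := by rw [hδ]; field_simp; ring
  have hδ2 : δ ≤ ε := by
    have : (0 : ℝ) ≤ k * h := by positivity
    nlinarith
  obtain ⟨Ω, A, _, _, _, X, u, a1, a2⟩ := step3 h k hδ0
  obtain ⟨Ω, A, _, _, _, X, u, a1, a2, a3⟩ := hide hδ0 a1 a2
  obtain ⟨Ω', _, _, X, a1, ⟨F, a2⟩, a3⟩ := lift hδ0 (hδ2.trans_lt hε1) a1 a2 a3
  let w : Option Ω' × Ω' × Fin h → ℤ × (Ω → ℤ) := fun a =>
    a.1.elim 0 X + X a.2.1 + (a.2.2 : ℕ) • ((1, 0) : ℤ × (Ω → ℤ))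
  obtain ⟨f, f1, f2⟩ := exists_emb w
  obtain ⟨N, hN⟩ := Finite.exists_le (fun ω => - f (X ω))
  let e := (Fintype.equivFin Ω').symm
  have hd : ∀ r, (((f (X (e r)) + N + 1).toNat : ℕ) : ℤ) = f (X (e r)) + N + 1 := fun r =>
    Int.toNat_of_nonneg (by linarith [hN (e r)])
  have hu : UP e := fun a => by rw [Pr_equiv e (fun x => x = a), Pr_single]
  refine ⟨_, fun r => (f (X (e r)) + N + 1).toNat, Fintype.one_lt_card, fun r => ?_,
    fun r r' z hz hr => ?_, fun b hb => ?_, ?_⟩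
  · have := hd r; have := hN (e r); simp only at *; omega
  · have h1 := congrArg (Nat.cast : ℕ → ℤ) hr
    push_cast at h1
    rw [hd, hd] at h1
    apply e.injective
    refine a3 _ _ z hz ?_
    have := f2 (none, e r, ⟨0, by omega⟩) (none, e r', ⟨z, hz⟩) (by
      simp only [w, Option.elim, map_add, map_nsmul, f1]; simp; linarith)
    simpa only [w, Option.elim, zero_add, zero_smul, add_zero] using this
  · obtain ⟨π, h1, h2⟩ := a1.iter _ b rfl
    refine ⟨fun ω i => e.symm (π (fun i => e (ω i)) i), fun ω ω' hω => ?_, ?_⟩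
    · have : (fun i => e (ω i)) = fun i => e (ω' i) :=
        h1 (funext fun i => e.symm.injective (congrFun hω i))
      exact funext fun i => e.injective (congrFun this i)
    · refine le_trans (Pr_mono fun ω hω => ?_) (((hu.pi (Fin k)).pr _).le.trans (h2.trans ?_))
      · rintro ⟨t, ht⟩
        refine hω ⟨f t, fun i => ?_⟩
        rw [hd, hd, Equiv.apply_symm_apply, ht i]
        simp only [map_add, map_nsmul, f1]; simp; ring
      · rw [← hδ1]
        have : ∑ i, b i ≤ k * h := by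
          refine (sum_le_sum (g := fun _ => h) fun i _ => (hb i).le).trans (by simp)
        have : ((∑ i, b i : ℕ) : ℝ) ≤ k * h := by exact_mod_cast this
        gcongr; linarith
  · refine ⟨fun n => if hn : ∃ a, f (w a) + 2 * N + 2 = n then F (w hn.choose) else 0,
      le_trans (Pr_mono fun p hp => ?_) ((hu.prod.pr _).le.trans (a2.trans hδ2))⟩
    intro h1; apply hp; intro z hz
    have h2 : f (w (some (e p.1), e p.2, ⟨z, hz⟩)) + 2 * N + 2 =
        (((f (X (e p.1)) + N + 1).toNat + (f (X (e p.2)) + N + 1).toNat + z : ℕ) : ℤ) := by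
      push_cast; rw [hd, hd]
      simp only [w, Option.elim, map_add, map_nsmul, f1]; simp; ring
    have h3 : ∃ a, f (w a) + 2 * N + 2 =
        (((f (X (e p.1)) + N + 1).toNat + (f (X (e p.2)) + N + 1).toNat + z : ℕ) : ℤ) := ⟨_, h2⟩
    simp only [dif_pos h3]
    rw [f2 _ (some (e p.1), e p.2, ⟨z, hz⟩) (by linarith [h3.choose_spec])]
    exact h1 z hz

end Pool.Agent.H.Berg
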