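import Pool.Agent.H.MP_335725_an.D

open Function Set

namespace Pool.Agent.H.Berg

structure St where
  L : ℕ
  W : ℕ
  pos : ℤ → ℤ
  bij : BijOn pos (Ico (-(L : ℤ)) L) (Ico 0 (2 * L))

structure Link (k : ℕ) (ε : ℝ) (s s' : St) where
  M : ℕ
  d : Fin M → ℕ
  D : ℕ → ℕ
  M2 : 2 ≤ M
  Ws : s'.W = s.W * M
  Ls : 2 * M * s.L ≤ s'.L
  cp : ∀ a ∈ Ico (-(s.L : ℤ)) s.L, ∀ r : Fin M, s'.pos (M * a + (r : ℕ)) = d r + s.pos a
  d1 : ∀ r, 1 ≤ d r
  d2 : ∀ r, d r + 2 * s.L < 2 * s'.L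
  good : ∀ b : Fin k → ℕ, (∀ i, b i < 4 * s.L) →
    ∃ π : (Fin k → Fin M) → (Fin k → Fin M), Injective π ∧
      Pr (fun ω => ¬ ∃ t : ℤ, ∀ i, (d (π ω i) : ℤ) = d (ω i) + t + b i) ≤ ε
  dec : Pr (fun p : Fin M × Fin M =>
    ¬ ∀ z : ℕ, z < 4 * s.L → D (d p.1 + d p.2 + z) = z) ≤ ε

lemma exists_next (k : ℕ) {ε : ℝ} (h0 : 0 < ε) (h1 : ε < 1) (s : St) :
    ∃ s', Nonempty (Link k ε s s') := by
  classical
  obtain ⟨M, d, M2, d1, sep, good, D, dec⟩ := level (4 * s.L) k h0 h1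
  obtain ⟨N, hN⟩ := Finite.exists_le d
  set L' := 2 * M * s.L + N + s.L + 1 with hL'
  have hM : (0 : ℤ) < M := by omega
  let f : ℤ → ℤ := fun i => d ⟨(i % M).toNat, by
    have := Int.emod_lt_of_pos i hM; have := Int.emod_nonneg i hM.ne'; omega⟩ + s.pos (i / M)
  have hf : ∀ (a : ℤ) (r : Fin M), f (M * a + (r : ℕ)) = d r + s.pos a := fun a r => by
    have e1 : (M * a + (r : ℕ)) % (M : ℤ) = (r : ℕ) := by
      rw [add_comm, Int.add_mul_emod_self_left]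
      exact Int.emod_eq_of_lt (by omega) (by have := r.2; omega)
    have e2 : (M * a + (r : ℕ)) / (M : ℤ) = a := by
      rw [add_comm, Int.add_mul_ediv_left _ _ hM.ne',
        Int.ediv_eq_zero_of_lt (by omega) (by have := r.2; omega), zero_add]
    simp only [f, e1, e2, Int.toNat_natCast]
  let S : Set (Finset.Ico (-(L' : ℤ)) L') :=
    {i | ∃ a ∈ Ico (-(s.L : ℤ)) s.L, ∃ r : Fin M, (i : ℤ) = M * a + (r : ℕ)}
  obtain ⟨g, hg⟩ := Set.MapsTo.exists_equiv_extend_of_card_eq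
    (α := Finset.Ico (-(L' : ℤ)) L') (t := Finset.Ico (0 : ℤ) (2 * L')) (by simp; omega)
    (s := S) (f := fun i => f i) (by
      rintro i ⟨a, ha, r, hr⟩
      have := s.bij.mapsTo ha
      have := hN r
      simp only [hr, hf, Finset.coe_Ico, mem_Ico] at *
      omega) (by
      rintro i ⟨a, ha, r, hr⟩ i' ⟨a', ha', r', hr'⟩ h
      have b1 := s.bij.mapsTo ha
      have b2 := s.bij.mapsTo ha'
      simp only [hr, hr', hf, mem_Ico] at h b1 b2
      have : r = r' := by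
        rcases le_total (s.pos a) (s.pos a') with h2 | h2
        · exact sep r r' (s.pos a' - s.pos a).toNat (by omega) (by omega)
        · exact (sep r' r (s.pos a - s.pos a').toNat (by omega) (by omega)).symm
      subst this
      have := s.bij.injOn ha ha' (by omega)
      subst this
      exact Subtype.ext (hr.trans hr'.symm))
  refine ⟨⟨L', s.W * M, fun i => if h : i ∈ Finset.Ico (-(L' : ℤ)) L' then g ⟨i, h⟩ else 0,
    ?_, ?_, ?_⟩, ⟨⟨M, d, D, M2, rfl, by simp only; omega, ?_, d1, fun r => ?_, good, dec⟩⟩⟩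
  · intro i hi
    have hi' : i ∈ Finset.Ico (-(L' : ℤ)) L' := by simpa using hi
    simp only [dif_pos hi']
    exact Finset.mem_Ico.1 (g ⟨i, hi'⟩).2
  · intro i hi j hj h
    have hi' : i ∈ Finset.Ico (-(L' : ℤ)) L' := by simpa using hi
    have hj' : j ∈ Finset.Ico (-(L' : ℤ)) L' := by simpa using hj
    simp only [dif_pos hi', dif_pos hj'] at h
    exact congrArg Subtype.val (g.injective (Subtype.ext h))
  · intro p hp
    obtain ⟨i, hi⟩ := g.surjective ⟨p, by simpa using hp⟩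
    refine ⟨i, Finset.mem_Ico.1 i.2, ?_⟩
    simp only [dif_pos i.2]
    exact congrArg Subtype.val hi
  · intro a ha r
    have h2 : (M : ℤ) * a + (r : ℕ) ∈ Finset.Ico (-(L' : ℤ)) L' := by
      have := r.2
      rw [mem_Ico] at ha
      rw [Finset.mem_Ico, hL']; push_cast
      constructor <;> nlinarith
    simp only [dif_pos h2]
    rw [hg ⟨_, h2⟩ ⟨a, ha, r, rfl⟩, hf]
  · have := hN r
    simp only; omega

structure Tw where
  L : ℕ → ℕ
  W : ℕ → ℕ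
  M : ℕ → ℕ
  pos : ℕ → ℤ → ℤ
  d : ∀ n, Fin (M n) → ℕ
  D : ℕ → ℕ → ℕ
  L0 : L 0 = 1
  W0 : W 0 = 1
  bij : ∀ n, BijOn (pos n) (Ico (-(L n : ℤ)) (L n)) (Ico 0 (2 * L n))
  M2 : ∀ n, 2 ≤ M n
  Ws : ∀ n, W (n + 1) = W n * M n
  Ls : ∀ n, 2 * M n * L n ≤ L (n + 1)
  cp : ∀ n, ∀ a ∈ Ico (-(L n : ℤ)) (L n), ∀ r : Fin (M n),
    pos (n + 1) (M n * a + (r : ℕ)) = d n r + pos n a
  d1 : ∀ n r, 1 ≤ d n r
  d2 : ∀ n r, d n r + 2 * L n < 2 * L (n + 1)
  good : ∀ n k, n.unpair.1 = k → ∀ b : Fin k → ℕ, (∀ i, b i < 4 * L n) →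
    ∃ π : (Fin k → Fin (M n)) → (Fin k → Fin (M n)), Injective π ∧
      Pr (fun ω => ¬ ∃ t : ℤ, ∀ i, (d n (π ω i) : ℤ) = d n (ω i) + t + b i) ≤ 1 / 4
  dec : ∀ n, Pr (fun p : Fin (M n) × Fin (M n) =>
    ¬ ∀ z : ℕ, z < 4 * L n → D n (d n p.1 + d n p.2 + z) = z) ≤ (1 / 2) ^ (n + 2)

theorem exists_tw : Nonempty Tw := by
  have h := fun (n : ℕ) (s : St) => exists_next n.unpair.1 (ε := (1 / 2) ^ (n + 2))
    (by positivity) (pow_lt_one₀ (by norm_num) (by norm_num) (by omega)) s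
  choose nx hnx using h
  let s0 : St := ⟨1, 1, fun a => a + 1, fun a ha => by simp only [mem_Ico] at *; omega,
    fun a _ b _ h => by simpa using h,
    fun p hp => ⟨p - 1, by simp only [mem_Ico] at *; omega, by simp⟩⟩
  let S : ℕ → St := fun n => Nat.rec s0 nx n
  let K : ∀ n, Link n.unpair.1 ((1 / 2) ^ (n + 2)) (S n) (S (n + 1)) := fun n => (hnx n (S n)).some
  refine ⟨⟨fun n => (S n).L, fun n => (S n).W, fun n => (K n).M, fun n => (S n).pos,
    fun n => (K n).d, fun n => (K n).D, rfl, rfl, fun n => (S n).bij, fun n => (K n).M2,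
    fun n => (K n).Ws, fun n => (K n).Ls, fun n => (K n).cp, fun n => (K n).d1,
    fun n => (K n).d2, ?_, fun n => (K n).dec⟩⟩
  rintro n k rfl b hb
  obtain ⟨π, h1, h2⟩ := (K n).good b hb
  refine ⟨π, h1, h2.trans ?_⟩
  rw [pow_add]
  have : ((1 : ℝ) / 2) ^ n ≤ 1 := pow_le_one₀ (by norm_num) (by norm_num)
  linarith

end Pool.Agent.H.Berg
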