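import Pool.Agent.H.MP_335725_an.E

open Function Set MeasureTheory Filter

namespace Pool.Agent.H.Berg

lemma piecewise {ι : Type} [Countable ι] [Nonempty ι] (f : ℝ → ℝ) (s : ι → Set ℝ) (c : ι → ℝ)
    (hs : ∀ i, MeasurableSet (s i)) (hc : ∀ x, ∃ i, x ∈ s i) (hf : ∀ i, ∀ x ∈ s i, f x = x + c i)
    (hi : Injective f) :
    Measurable f ∧ ∀ A, MeasurableSet A → volume (f ⁻¹' A) ≤ volume A := by
  obtain ⟨e, he⟩ := exists_surjective_nat ι
  let t := disjointed (fun n => s (e n))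
  have t1 : ∀ n, MeasurableSet (t n) := MeasurableSet.disjointed fun n => hs _
  have t2 : ∀ n, t n ⊆ s (e n) := fun n => disjointed_subset (fun n => s (e n)) n
  have t3 : ∀ x, ∃ n, x ∈ t n := fun x => by
    rw [← mem_iUnion, iUnion_disjointed, mem_iUnion]
    obtain ⟨i, hi⟩ := hc x
    obtain ⟨n, rfl⟩ := he i
    exact ⟨n, hi⟩
  have key : ∀ A, f ⁻¹' A = ⋃ n, (fun x => x + c (e n)) ⁻¹' ((fun x => x - c (e n)) ⁻¹' t n ∩ A) :=
    fun A => by
      ext x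
      simp only [mem_preimage, mem_iUnion, mem_inter_iff, add_sub_cancel_right]
      constructor
      · intro h
        obtain ⟨n, hn⟩ := t3 x
        exact ⟨n, hn, by rwa [← hf _ x (t2 n hn)]⟩
      · rintro ⟨n, hn, h⟩
        rwa [hf _ x (t2 n hn)]
  have m1 : ∀ n A, MeasurableSet A → MeasurableSet ((fun x => x - c (e n)) ⁻¹' t n ∩ A) :=
    fun n A hA => (measurable_sub_const _ (t1 n)).inter hA
  refine ⟨fun A hA => ?_, fun A hA => ?_⟩
  · rw [key]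
    exact MeasurableSet.iUnion fun n => measurable_add_const _ (m1 n A hA)
  · rw [key]
    refine (measure_iUnion_le _).trans ?_
    simp only [measure_preimage_add_right]
    rw [← measure_iUnion _ (fun n => m1 n A hA)]
    · exact measure_mono (iUnion_subset fun n => inter_subset_right)
    · intro n m hnm
      rw [onFun, disjoint_left]
      rintro y ⟨h1, -⟩ ⟨h2, -⟩
      have a1 := hf _ _ (t2 n h1)
      have a2 := hf _ _ (t2 m h2)
      simp only [sub_add_cancel] at a1 a2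
      have a3 := hi (a1.trans a2.symm)
      rw [mem_preimage, a3] at h1
      exact disjoint_left.1 (disjoint_disjointed (fun n => s (e n)) hnm) h1 h2

namespace Tw
variable (w : Tw)

lemma W_pos (n : ℕ) : 0 < w.W n := by
  induction n with
  | zero => rw [w.W0]; norm_num
  | succ n ih => rw [w.Ws]; have := w.M2 n; positivity

lemma W_pos' (n : ℕ) : (0 : ℝ) < w.W n := by exact_mod_cast w.W_pos n

lemma W_ge (n : ℕ) : 2 ^ n ≤ w.W n := by
  induction n with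
  | zero => rw [w.W0]; norm_num
  | succ n ih => rw [w.Ws, pow_succ]; exact Nat.mul_le_mul ih (w.M2 n)

lemma L_ge (n : ℕ) : 2 ^ n * w.W n ≤ w.L n := by
  induction n with
  | zero => rw [w.W0, w.L0]; norm_num
  | succ n ih =>
    refine le_trans (le_of_eq ?_) ((Nat.mul_le_mul_left _ ih).trans (w.Ls n))
    rw [w.Ws]; ring

noncomputable def idx (n : ℕ) (x : ℝ) : ℤ := ⌊(w.W n : ℝ) * x⌋
noncomputable def fr (n : ℕ) (x : ℝ) : ℝ := Int.fract ((w.W n : ℝ) * x)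
def In (n : ℕ) (x : ℝ) : Prop := w.idx n x ∈ Ico (-(w.L n : ℤ)) (w.L n)
noncomputable def P (n : ℕ) (x : ℝ) : ℤ := w.pos n (w.idx n x)

noncomputable def dig (n : ℕ) (x : ℝ) : Fin (w.M n) := ⟨⌊(w.M n : ℝ) * w.fr n x⌋.toNat, by
  have h1 : ⌊(w.M n : ℝ) * w.fr n x⌋ < w.M n := by
    rw [Int.floor_lt]
    have := Int.fract_lt_one ((w.W n : ℝ) * x)
    have h2 : (0 : ℝ) < w.M n := by have := w.M2 n; positivity
    unfold fr; push_cast; nlinarith
  have := w.M2 n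
  omega⟩

lemma mul_succ (n : ℕ) (x : ℝ) :
    (w.W (n + 1) : ℝ) * x = ((w.M n * w.idx n x : ℤ) : ℝ) + w.M n * w.fr n x := by
  rw [w.Ws]; unfold fr idx; rw [Int.fract]; push_cast; ring

lemma idx_succ (n : ℕ) (x : ℝ) : w.idx (n + 1) x = w.M n * w.idx n x + (w.dig n x : ℕ) := by
  have h : 0 ≤ ⌊(w.M n : ℝ) * w.fr n x⌋ :=
    Int.floor_nonneg.2 (mul_nonneg (by positivity) (Int.fract_nonneg _))
  rw [idx, mul_succ, Int.floor_intCast_add]; simp only [dig, Int.toNat_of_nonneg h]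

lemma fr_succ (n : ℕ) (x : ℝ) : w.fr (n + 1) x = Int.fract (w.M n * w.fr n x) := by
  rw [fr, mul_succ, Int.fract_intCast_add]

variable {w}

lemma In.succ {n : ℕ} {x : ℝ} (h : w.In n x) : w.In (n + 1) x := by
  have h1 := w.Ls n
  have h2 := (w.dig n x).2
  have h3 : ((2 * w.M n * w.L n : ℕ) : ℤ) ≤ w.L (n + 1) := by exact_mod_cast h1
  have h4 : ((w.dig n x : ℕ) : ℤ) < w.M n := by exact_mod_cast h2
  have h5 : (0 : ℤ) ≤ (w.dig n x : ℕ) := by positivity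
  unfold In at *
  rw [idx_succ]; rw [mem_Ico] at *; push_cast at h3
  constructor <;> nlinarith

lemma In.P_succ {n : ℕ} {x : ℝ} (h : w.In n x) : w.P (n + 1) x = w.d n (w.dig n x) + w.P n x := by
  rw [P, idx_succ, w.cp n _ h, P]

lemma In.P_mem {n : ℕ} {x : ℝ} (h : w.In n x) : 0 ≤ w.P n x ∧ w.P n x < 2 * w.L n :=
  (w.bij n).mapsTo h

variable (w)

lemma ev_In (x : ℝ) : ∀ᶠ n in atTop, w.In n x := by
  obtain ⟨n, hn⟩ := pow_unbounded_of_one_lt |x| (one_lt_two (α := ℝ))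
  refine eventually_atTop.2 ⟨n, fun m hm => Nat.le_induction ?_ (fun _ _ h => h.succ) m hm⟩
  have h1 : (2 : ℝ) ^ n * w.W n ≤ w.L n := by exact_mod_cast w.L_ge n
  have h2 := w.W_pos' n
  have h3 := abs_lt.1 hn
  unfold In idx
  rw [mem_Ico, Int.le_floor, Int.floor_lt]; push_cast
  constructor <;> nlinarith

def Rn (n : ℕ) (t : ℤ) (x y : ℝ) : Prop :=
  w.In n x ∧ w.In n y ∧ w.P n y = w.P n x + t ∧ w.fr n y = w.fr n x

def R (t : ℤ) (x y : ℝ) : Prop := ∀ᶠ n in atTop, w.Rn n t x y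

variable {w}

lemma Rn.succ {n : ℕ} {t : ℤ} {x y : ℝ} (h : w.Rn n t x y) : w.Rn (n + 1) t x y := by
  obtain ⟨h1, h2, h3, h4⟩ := h
  have : w.dig n y = w.dig n x := by simp only [dig, h4]
  refine ⟨h1.succ, h2.succ, ?_, by rw [fr_succ, fr_succ, h4]⟩
  rw [h1.P_succ, h2.P_succ, this, h3]; ring

lemma Rn.R {n : ℕ} {t : ℤ} {x y : ℝ} (h : w.Rn n t x y) : w.R t x y :=
  eventually_atTop.2 ⟨n, fun m hm => Nat.le_induction h (fun _ _ h => h.succ) m hm⟩

lemma R.symm {t : ℤ} {x y : ℝ} (h : w.R t x y) : w.R (-t) y x :=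
  h.mono fun _ ⟨h1, h2, h3, h4⟩ => ⟨h2, h1, by omega, h4.symm⟩

lemma R.trans {s t : ℤ} {x y z : ℝ} (h : w.R s x y) (h' : w.R t y z) : w.R (s + t) x z :=
  (h.and h').mono fun _ ⟨⟨h1, _, h3, h4⟩, _, h6, h7, h8⟩ => ⟨h1, h6, by omega, h8.trans h4⟩

lemma R.eq {x y : ℝ} (h : w.R 0 x y) : y = x := by
  obtain ⟨n, h1, h2, h3, h4⟩ := h.exists
  have h5 := (w.bij n).injOn h2 h1 (by simpa [P] using h3)
  have h6 : (w.W n : ℝ) * y = w.W n * x := by
    rw [← Int.floor_add_fract (w.W n * y), ← Int.floor_add_fract (w.W n * x)]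
    unfold idx at h5; unfold fr at h4; rw [h5, h4]
  exact mul_left_cancel₀ (w.W_pos' n).ne' h6

lemma R.uniq {t : ℤ} {x y z : ℝ} (h : w.R t x y) (h' : w.R t x z) : z = y :=
  R.eq (by simpa using h.symm.trans h')

variable (w)

lemma idx_add (n : ℕ) (x : ℝ) (c : ℤ) : w.idx n (x + c / w.W n) = w.idx n x + c := by
  have := (w.W_pos' n).ne'
  unfold idx; rw [mul_add, mul_div_cancel₀ _ this, Int.floor_add_intCast]

lemma fr_add (n : ℕ) (x : ℝ) (c : ℤ) : w.fr n (x + c / w.W n) = w.fr n x := by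
  have := (w.W_pos' n).ne'
  unfold fr; rw [mul_add, mul_div_cancel₀ _ this, Int.fract_add_intCast]

lemma R_cell {n : ℕ} {t a a' : ℤ} {x : ℝ} (ha : a ∈ Ico (-(w.L n : ℤ)) (w.L n))
    (ha' : a' ∈ Ico (-(w.L n : ℤ)) (w.L n)) (hp : w.pos n a' = w.pos n a + t)
    (hx : w.idx n x = a) : w.R t x (x + ((a' - a : ℤ) : ℝ) / w.W n) := by
  have h1 : w.idx n (x + ((a' - a : ℤ) : ℝ) / w.W n) = a' := by rw [idx_add, hx]; ring
  exact Rn.R (n := n) ⟨by rwa [In, hx], by rwa [In, h1], by rw [P, P, h1, hx, hp], w.fr_add _ _ _⟩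

lemma cover {t : ℤ} (ht : |t| ≤ 1) (x : ℝ) : ∃ n a', w.In n x ∧
    a' ∈ Ico (-(w.L n : ℤ)) (w.L n) ∧ w.pos n a' = w.P n x + t := by
  obtain ⟨n, hn⟩ := (w.ev_In x).exists
  have h1 := hn.P_succ
  have h2 := hn.P_mem
  have h3 := w.d1 n (w.dig n x)
  have h4 := w.d2 n (w.dig n x)
  have h5 := abs_le.1 ht
  obtain ⟨a', h6, h7⟩ := (w.bij (n + 1)).surjOn
    (show w.P (n + 1) x + t ∈ Ico (0 : ℤ) (2 * w.L (n + 1)) by rw [mem_Ico]; omega)
  exact ⟨n + 1, a', hn.succ, h6, h7⟩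

lemma total {t : ℤ} (ht : |t| ≤ 1) (x : ℝ) : ∃ y, w.R t x y := by
  obtain ⟨n, a', h1, h2, h3⟩ := w.cover ht x
  exact ⟨_, w.R_cell h1 h2 h3 rfl⟩

lemma meas_idx (n : ℕ) : Measurable (w.idx n) :=
  Int.measurable_floor.comp (measurable_const_mul _)

lemma meas_P (n : ℕ) : Measurable (w.P n) := (measurable_of_countable (w.pos n)).comp (w.meas_idx n)

lemma pw {t : ℤ} (ht : |t| ≤ 1) (f : ℝ → ℝ) (hf : ∀ x, w.R t x (f x)) :
    Measurable f ∧ ∀ A, MeasurableSet A → volume (f ⁻¹' A) ≤ volume A := by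
  refine piecewise (ι := ℕ × ℤ × ℤ) f (fun i => {x | w.idx i.1 x ∈ {a | a = i.2.1 ∧
    i.2.1 ∈ Ico (-(w.L i.1 : ℤ)) (w.L i.1) ∧ i.2.2 ∈ Ico (-(w.L i.1 : ℤ)) (w.L i.1) ∧
      w.pos i.1 i.2.2 = w.pos i.1 i.2.1 + t}}) (fun i => ((i.2.2 - i.2.1 : ℤ) : ℝ) / w.W i.1)
    (fun i => w.meas_idx i.1 (MeasurableSet.of_discrete)) (fun x => ?_) (fun i x hx => ?_)
    (fun x y h => ?_)
  · obtain ⟨n, a', h1, h2, h3⟩ := w.cover ht x
    exact ⟨(n, w.idx n x, a'), rfl, h1, h2, h3⟩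
  · exact (w.R_cell hx.2.1 hx.2.2.1 hx.2.2.2 hx.1).uniq (hf x)
  · exact (hf y).symm.uniq (h ▸ (hf x).symm)

theorem exists_T : ∃ T : ℝ ≃ᵐ ℝ, MeasurePreserving T volume volume ∧ ∀ x, w.R 1 x (T x) := by
  choose f hf using w.total (t := 1) (by simp)
  choose g hg using w.total (t := -1) (by simp)
  have h1 : ∀ x, g (f x) = x := fun x => R.eq (by simpa using (hf x).trans (hg _))
  have h2 : ∀ x, f (g x) = x := fun x => R.eq (by simpa using (hg x).trans (hf _))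
  obtain ⟨f1, f2⟩ := w.pw (by simp) f hf
  obtain ⟨g1, g2⟩ := w.pw (by simp) g hg
  refine ⟨⟨⟨f, g, h1, h2⟩, f1, g1⟩, ⟨f1, Measure.ext fun A hA => ?_⟩, hf⟩
  change Measure.map f volume A = _
  rw [Measure.map_apply f1 hA]
  refine le_antisymm (f2 A hA) (le_trans (le_of_eq ?_) (g2 _ (f1 hA)))
  congr 1; ext x; simp [h2]

end Tw

end Pool.Agent.H.Berg
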