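import Pool.Agent.H.MP_335725_an.F

open Function Set MeasureTheory Filter Topology

namespace Pool.Agent.H.Berg

namespace Tw
variable (w : Tw)

def cell (n : ℕ) (a : ℤ) : Set ℝ := Ico (a / w.W n) ((a + 1) / w.W n)

lemma mem_cell {n : ℕ} {a : ℤ} {x : ℝ} : x ∈ w.cell n a ↔ w.idx n x = a := by
  have := w.W_pos' n
  rw [cell, idx, mem_Ico, Int.floor_eq_iff, div_le_iff₀' this, lt_div_iff₀' this]

lemma vol_cell (n : ℕ) (a : ℤ) : volume (w.cell n a) = ENNReal.ofReal (1 / w.W n) := by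
  rw [cell, Real.volume_Ico]; congr 1; ring

def Q {k : ℕ} (n : ℕ) (a : Fin k → ℤ) : Set (Fin k → ℝ) := Set.pi univ fun i => w.cell n (a i)

lemma mem_Q {k n : ℕ} {a : Fin k → ℤ} {x : Fin k → ℝ} : x ∈ w.Q n a ↔ ∀ i, w.idx n (x i) = a i := by
  simp [Q, mem_cell]

lemma meas_Q {k : ℕ} (n : ℕ) (a : Fin k → ℤ) : MeasurableSet (w.Q n a) :=
  MeasurableSet.univ_pi fun _ => measurableSet_Ico

lemma vol_Q {k : ℕ} (n : ℕ) (a : Fin k → ℤ) :
    volume (w.Q n a) = ENNReal.ofReal ((1 / w.W n) ^ k) := by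
  rw [Q, volume_pi_pi]
  simp only [vol_cell, Finset.prod_const, Finset.card_univ, Fintype.card_fin]
  rw [ENNReal.ofReal_pow (by positivity)]

lemma fin_Q {k : ℕ} (n : ℕ) (a : Fin k → ℤ) (B : Set (Fin k → ℝ)) :
    volume (B ∩ w.Q n a) ≠ ⊤ :=
  ne_top_of_le_ne_top (by rw [vol_Q]; exact ENNReal.ofReal_ne_top)
    (measure_mono inter_subset_right)

lemma real_Q {k : ℕ} (n : ℕ) (a : Fin k → ℤ) : volume.real (w.Q n a) = (1 / w.W n) ^ k := by
  rw [Measure.real, vol_Q, ENNReal.toReal_ofReal (by positivity)]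

lemma dens {k : ℕ} {B : Set (Fin k → ℝ)} (hB : MeasurableSet B) (h0 : volume B ≠ 0) :
    ∃ x : Fin k → ℝ, ∀ᶠ n in atTop, (∀ i, w.In n (x i)) ∧
      volume.real (Bᶜ ∩ w.Q n (fun i => w.idx n (x i))) ≤ 1 / 10 * (1 / w.W n) ^ k := by
  haveI : (ae (volume.restrict B)).NeBot := ae_neBot.2 (by simpa using h0)
  obtain ⟨x, hx⟩ := (IsUnifLocDoublingMeasure.ae_tendsto_measure_inter_div
    (volume : Measure (Fin k → ℝ)) B 1).exists
  let c : ℕ → Fin k → ℝ := fun n i => (w.idx n (x i) + 1 / 2) / w.W n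
  let δ : ℕ → ℝ := fun n => 1 / (2 * w.W n)
  have hδ : ∀ n, 0 < δ n := fun n => by have := w.W_pos' n; positivity
  have hsub : ∀ n, w.Q n (fun i => w.idx n (x i)) ⊆ Metric.closedBall (c n) (δ n) := by
    intro n y hy
    rw [Metric.mem_closedBall, dist_pi_le_iff (hδ n).le]
    intro i
    have h1 := hy i (mem_univ i)
    have h2 := w.W_pos' n
    simp only [cell, mem_Ico] at h1
    have e1 : c n i = w.idx n (x i) / w.W n + δ n := by simp only [c, δ]; field_simp
    have e2 : ((w.idx n (x i) : ℝ) + 1) / w.W n = w.idx n (x i) / w.W n + 2 * δ n := by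
      simp only [δ]; field_simp
    rw [Real.dist_eq, abs_le, e1]; rw [e2] at h1
    constructor <;> linarith [h1.1, h1.2]
  have hlim : Tendsto δ atTop (𝓝[>] 0) := by
    refine tendsto_nhdsWithin_iff.2 ⟨?_, Eventually.of_forall hδ⟩
    refine squeeze_zero (fun n => (hδ n).le) (fun n => ?_)
      (tendsto_pow_atTop_nhds_zero_of_lt_one (r := 1 / 2) (by norm_num) (by norm_num))
    have h1 : (2 : ℝ) ^ n ≤ w.W n := by exact_mod_cast w.W_ge n
    simp only [δ]; rw [one_div_pow]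
    exact one_div_le_one_div_of_le (by positivity) (by linarith [w.W_pos' n])
  have h1 := hx c δ hlim (Eventually.of_forall fun n => by
    rw [one_mul]; exact hsub n (w.mem_Q.2 fun i => rfl))
  have h2 := (ENNReal.tendsto_toReal ENNReal.one_ne_top).comp h1
  have h3 := h2.eventually (lt_mem_nhds (show (9 / 10 : ℝ) < (1 : ENNReal).toReal by norm_num))
  refine ⟨x, ((eventually_all.2 fun i => w.ev_In (x i)).and h3).mono fun n ⟨a1, a2⟩ => ⟨a1, ?_⟩⟩
  have b1 : volume (Metric.closedBall (c n) (δ n)) = ENNReal.ofReal ((1 / w.W n) ^ k) := by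
    rw [Real.volume_pi_closedBall _ (hδ n).le, Fintype.card_fin]
    congr 2; simp only [δ]; field_simp
  have b2 : volume.real (Metric.closedBall (c n) (δ n)) = (1 / w.W n) ^ k := by
    rw [Measure.real, b1, ENNReal.toReal_ofReal (by positivity)]
  have b3 : volume (Metric.closedBall (c n) (δ n)) ≠ ⊤ := by rw [b1]; exact ENNReal.ofReal_ne_top
  have b4 := measureReal_inter_add_sdiff (μ := volume) (s := Metric.closedBall (c n) (δ n)) hB b3
  have b5 : (0 : ℝ) < (1 / w.W n) ^ k := by have := w.W_pos' n; positivity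
  simp only [comp_apply, ENNReal.toReal_div] at a2
  rw [← Measure.real, ← Measure.real, b2, lt_div_iff₀ b5, inter_comm] at a2
  have b6 : volume.real (Bᶜ ∩ w.Q n (fun i => w.idx n (x i))) ≤
      volume.real (Metric.closedBall (c n) (δ n) \ B) :=
    measureReal_mono (fun y hy => ⟨hsub n hy.2, hy.1⟩)
      (ne_top_of_le_ne_top b3 (measure_mono diff_subset))
  linarith

lemma sum_sub {k : ℕ} (n : ℕ) (a : Fin k → ℤ) {B : Set (Fin k → ℝ)} (hB : MeasurableSet B) :
    ∑ ω : Fin k → Fin (w.M n), volume.real (B ∩ w.Q (n + 1) fun i => w.M n * a i + (ω i : ℕ)) ≤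
      volume.real (B ∩ w.Q n a) := by
  rw [← measureReal_biUnion_finset _ (fun ω _ => hB.inter (w.meas_Q _ _))
    (fun ω _ => w.fin_Q _ _ _)]
  · refine measureReal_mono (iUnion₂_subset fun ω _ y hy => ⟨hy.1, w.mem_Q.2 fun i => ?_⟩)
      (w.fin_Q _ _ _)
    have h1 := w.mem_Q.1 hy.2 i
    rw [idx_succ] at h1
    have h2 : ((w.dig n (y i) : ℕ) : ℤ) < w.M n := by exact_mod_cast (w.dig n (y i)).2
    have h3 : ((ω i : ℕ) : ℤ) < w.M n := by exact_mod_cast (ω i).2
    have h4 : (0 : ℤ) ≤ (w.dig n (y i) : ℕ) := by positivity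
    have h5 : (0 : ℤ) ≤ (ω i : ℕ) := by positivity
    rcases lt_trichotomy (w.idx n (y i)) (a i) with h | h | h
    · nlinarith
    · exact h
    · nlinarith
  · intro ω _ ω' _ hne
    rw [onFun, disjoint_left]
    rintro y ⟨-, h1⟩ ⟨-, h2⟩
    refine hne (funext fun i => Fin.ext ?_)
    have := w.mem_Q.1 h1 i
    have := w.mem_Q.1 h2 i
    omega

variable {T : ℝ → ℝ} (hT : ∀ x, w.R 1 x (T x))
include hT

lemma inv_R {k : ℕ} {s : Set (Fin k → ℝ)} (hs : (fun (x : Fin k → ℝ) i => T (x i)) ⁻¹' s = s)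
    (t : ℤ) : ∀ x y : Fin k → ℝ, (∀ i, w.R t (x i) (y i)) → (x ∈ s ↔ y ∈ s) := by
  have h1 : ∀ x : Fin k → ℝ, (fun i => T (x i)) ∈ s ↔ x ∈ s := fun x => by
    conv_rhs => rw [← hs]
    rfl
  induction t using Int.induction_on with
  | zero => intro x y h; rw [show y = x from funext fun i => (h i).eq]
  | succ t ih =>
    intro x y h
    rw [← h1 x]
    exact ih _ _ fun i => by simpa using (hT (x i)).symm.trans (h i)
  | pred t ih =>
    intro x y h
    rw [← h1 y]
    exact ih _ _ fun i => by simpa using (h i).trans (hT (y i))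

lemma vol_match {k : ℕ} {s : Set (Fin k → ℝ)}
    (hs : (fun (x : Fin k → ℝ) i => T (x i)) ⁻¹' s = s) {n : ℕ} {a a' : Fin k → ℤ} {t : ℤ}
    (ha : ∀ i, a i ∈ Ico (-(w.L n : ℤ)) (w.L n)) (ha' : ∀ i, a' i ∈ Ico (-(w.L n : ℤ)) (w.L n))
    (hp : ∀ i, w.pos n (a' i) = w.pos n (a i) + t) :
    volume.real (s ∩ w.Q n a) = volume.real (s ∩ w.Q n a') := by
  have : s ∩ w.Q n a = (fun x => x + fun i => ((a' i - a i : ℤ) : ℝ) / w.W n) ⁻¹'
      (s ∩ w.Q n a') := by
    ext x
    have h1 : x ∈ w.Q n a ↔ (x + fun i => ((a' i - a i : ℤ) : ℝ) / w.W n) ∈ w.Q n a' := by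
      simp only [mem_Q, Pi.add_apply, idx_add]
      exact forall_congr' fun i => by omega
    rw [mem_preimage, mem_inter_iff, mem_inter_iff, ← h1]
    refine and_congr_left fun hx => w.inv_R hT hs t _ _ fun i => ?_
    exact w.R_cell (ha i) (ha' i) (hp i) (w.mem_Q.1 hx i)
  rw [this, Measure.real, measure_preimage_add_right, Measure.real]

theorem preerg (k : ℕ) : PreErgodic (fun (x : Fin k → ℝ) i => T (x i)) volume := by
  refine ⟨fun s hm hs => ?_⟩
  rw [eventuallyConst_set]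
  by_contra hh
  rw [not_or] at hh
  obtain ⟨x, hx⟩ := w.dens hm (fun h => hh.2 (measure_eq_zero_iff_ae_notMem.1 h))
  obtain ⟨y, hy⟩ := w.dens hm.compl (fun h => hh.1 h)
  obtain ⟨N, hN⟩ := eventually_atTop.1 (hx.and hy)
  obtain ⟨⟨x1, x2⟩, y1, y2⟩ := hN (Nat.pair k N) (Nat.right_le_pair _ _)
  have hk : (Nat.pair k N).unpair.1 = k := by simp
  generalize Nat.pair k N = n at *
  rw [compl_compl] at y2
  obtain ⟨π, p1, p2⟩ := w.good n k hk (fun i => (w.P n (x i) - w.P n (y i) + 2 * w.L n).toNat)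
    (fun i => by have := (x1 i).P_mem; have := (y1 i).P_mem; omega)
  set η : ℝ := (1 / w.W (n + 1)) ^ k with hη
  have hη0 : 0 < η := by have := w.W_pos' (n + 1); positivity
  set c : ℝ := (Fintype.card (Fin k → Fin (w.M n)) : ℝ) with hc
  have hcη : (1 / w.W n : ℝ) ^ k = c * η := by
    have := w.W_pos' n
    have h2 : (0 : ℝ) < w.M n := by have := w.M2 n; positivity
    rw [hc, hη, w.Ws]; simp only [Fintype.card_pi, Fintype.card_fin, Finset.prod_const,
      Finset.card_univ]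
    push_cast; rw [← mul_pow]; congr 1; field_simp
  have hc0 : 0 < c := by
    have : 0 < c * η := by rw [← hcη]; have := w.W_pos' n; positivity
    exact (pos_iff_pos_of_mul_pos this).2 hη0
  have rng : ∀ (z : ℝ) (r : Fin (w.M n)), w.In n z →
      (w.M n : ℤ) * w.idx n z + (r : ℕ) ∈ Ico (-(w.L (n + 1) : ℤ)) (w.L (n + 1)) := by
    intro z r hz
    have h3 : ((2 * w.M n * w.L n : ℕ) : ℤ) ≤ w.L (n + 1) := by exact_mod_cast w.Ls n
    have h4 : ((r : ℕ) : ℤ) < w.M n := by exact_mod_cast r.2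
    have h5 : (0 : ℤ) ≤ (r : ℕ) := by positivity
    unfold In at hz
    rw [mem_Ico] at *; push_cast at h3
    constructor <;> nlinarith
  have key : ∀ ω : Fin k → Fin (w.M n), η ≤ ind (¬ ∃ t : ℤ, ∀ i, (w.d n (π ω i) : ℤ) =
      w.d n (ω i) + t + ((w.P n (x i) - w.P n (y i) + 2 * w.L n).toNat : ℕ)) * η +
      volume.real (s ∩ w.Q (n + 1) fun i => w.M n * w.idx n (y i) + (π ω i : ℕ)) +
      volume.real (sᶜ ∩ w.Q (n + 1) fun i => w.M n * w.idx n (x i) + (ω i : ℕ)) := by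
    intro ω
    by_cases hb : ∃ t : ℤ, ∀ i, (w.d n (π ω i) : ℤ) =
      w.d n (ω i) + t + ((w.P n (x i) - w.P n (y i) + 2 * w.L n).toNat : ℕ)
    · rw [ind_neg (not_not.2 hb), zero_mul, zero_add]
      obtain ⟨t, ht⟩ := hb
      rw [← w.vol_match hT hs (t := t + 2 * w.L n)
        (a := fun i => w.M n * w.idx n (x i) + (ω i : ℕ)) (fun i => rng _ _ (x1 i))
        (fun i => rng _ _ (y1 i)) (fun i => by
          have := (x1 i).P_mem; have := (y1 i).P_mem; have := ht i
          rw [w.cp n _ (x1 i), w.cp n _ (y1 i)]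
          unfold P at *; omega)]
      have := measureReal_inter_add_sdiff (μ := volume)
        (s := w.Q (n + 1) fun i => w.M n * w.idx n (x i) + (ω i : ℕ)) hm
        (by rw [vol_Q]; exact ENNReal.ofReal_ne_top)
      rw [real_Q, diff_eq, inter_comm, inter_comm _ sᶜ] at this
      exact this.ge
    · rw [ind_pos hb, one_mul, add_assoc]
      exact le_add_of_nonneg_right (add_nonneg measureReal_nonneg measureReal_nonneg)
  have s1 := Finset.sum_le_sum fun ω (_ : ω ∈ Finset.univ) => key ω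
  rw [Finset.sum_add_distrib, Finset.sum_add_distrib, ← Finset.sum_mul,
    (Finite.injective_iff_bijective.1 p1).sum_comp (fun ω : Fin k → Fin (w.M n) =>
      volume.real (s ∩ w.Q (n + 1) fun i => w.M n * w.idx n (y i) + (ω i : ℕ)))] at s1
  have s2 := w.sum_sub n (fun i => w.idx n (y i)) hm
  have s3 := w.sum_sub n (fun i => w.idx n (x i)) hm.compl
  rw [Pr, ← hc, div_le_iff₀ hc0] at p2
  rw [hcη] at x2 y2
  simp only [Finset.sum_const, Finset.card_univ, nsmul_eq_mul, ← hc] at s1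
  nlinarith [mul_pos hc0 hη0]

end Tw

end Pool.Agent.H.Berg
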