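import Pool.Agent.H.MP_335725_an.G

open Function Set MeasureTheory Filter Topology

namespace Pool.Agent.H.Berg

namespace Tw
variable (w : Tw)

def F : ℕ → ℕ → ℕ
  | 0 => id
  | n + 1 => F n ∘ w.D n

def bad (n : ℕ) (p : Fin (w.M n) × Fin (w.M n)) : Prop :=
  ¬ ∀ z : ℕ, z < 4 * w.L n → w.D n (w.d n p.1 + w.d n p.2 + z) = z

def Bad (a b : ℤ) (n : ℕ) : Set (ℝ × ℝ) :=
  {p | p ∈ w.cell 0 a ×ˢ w.cell 0 b ∧ w.bad n (w.dig n p.1, w.dig n p.2)}

lemma idx_mem {a : ℤ} {x : ℝ} (h : x ∈ w.cell 0 a) (n : ℕ) :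
    w.idx n x ∈ Finset.Ico (a * w.W n) (a * w.W n + w.W n) := by
  have := w.W_pos' n
  simp only [cell, w.W0, Nat.cast_one, div_one, mem_Ico] at h
  rw [Finset.mem_Ico, idx, Int.le_floor, Int.floor_lt]; push_cast
  constructor <;> nlinarith [h.1, h.2]

lemma vol_Bad (a b : ℤ) (n : ℕ) :
    (volume.prod volume) (w.Bad a b n) ≤ ENNReal.ofReal ((1 / 2) ^ (n + 2)) := by
  classical
  let I := (Finset.Ico (a * w.W n) (a * w.W n + w.W n) ×ˢ
    Finset.Ico (b * w.W n) (b * w.W n + w.W n)) ×ˢ Finset.univ.filter (w.bad n)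
  have h1 : w.Bad a b n ⊆ ⋃ i ∈ I, w.cell (n + 1) (w.M n * i.1.1 + (i.2.1 : ℕ)) ×ˢ
      w.cell (n + 1) (w.M n * i.1.2 + (i.2.2 : ℕ)) := by
    rintro p ⟨⟨h1, h2⟩, h3⟩
    refine mem_iUnion₂.2 ⟨((w.idx n p.1, w.idx n p.2), (w.dig n p.1, w.dig n p.2)), ?_,
      w.mem_cell.2 (w.idx_succ _ _), w.mem_cell.2 (w.idx_succ _ _)⟩
    simp only [I, Finset.mem_product, Finset.mem_filter, Finset.mem_univ, true_and]
    exact ⟨⟨w.idx_mem h1 n, w.idx_mem h2 n⟩, h3⟩
  refine (measure_mono h1).trans ((measure_biUnion_finset_le _ _).trans ?_)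
  simp only [Measure.prod_prod, vol_cell, Finset.sum_const, nsmul_eq_mul]
  rw [← ENNReal.ofReal_mul (by positivity), ← ENNReal.ofReal_natCast,
    ← ENNReal.ofReal_mul (by positivity)]
  refine ENNReal.ofReal_le_ofReal (le_trans (le_of_eq ?_) (w.dec n))
  have h2 := w.W_pos' n
  have h3 : (0 : ℝ) < w.M n := by have := w.M2 n; positivity
  have h4 : ∑ ω, ind (w.bad n ω) = (Finset.univ.filter (w.bad n)).card := by
    rw [Finset.card_filter]; push_cast
    exact Finset.sum_congr rfl fun p _ => by unfold ind; congr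
  change _ = (∑ ω, ind (w.bad n ω)) / _
  rw [h4]
  simp only [I, Finset.card_product, Int.card_Ico, add_sub_cancel_left, Int.toNat_natCast, w.Ws,
    Fintype.card_prod, Fintype.card_fin]
  push_cast; field_simp

lemma good_pos (a b : ℤ) :
    (volume.prod volume) (w.cell 0 a ×ˢ w.cell 0 b \ ⋃ n, w.Bad a b n) ≠ 0 := by
  intro h
  have h1 := le_measure_diff (μ := (volume : Measure ℝ).prod (volume : Measure ℝ))
    (s₁ := w.cell 0 a ×ˢ w.cell 0 b) (s₂ := ⋃ n, w.Bad a b n)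
  have h2 := (measure_iUnion_le _).trans (ENNReal.tsum_le_tsum (w.vol_Bad a b))
  have h3 : HasSum (fun n : ℕ => ((1 : ℝ) / 2) ^ (n + 2)) (1 / 2) := by
    have := hasSum_geometric_two.mul_right (((1 : ℝ) / 2) ^ 2)
    simp only [← pow_add] at this
    rwa [show (2 : ℝ) * (1 / 2) ^ 2 = 1 / 2 by norm_num] at this
  rw [← ENNReal.ofReal_tsum_of_nonneg (fun n => by positivity) h3.summable, h3.tsum_eq] at h2
  rw [h, Measure.prod_prod, vol_cell, vol_cell, w.W0, nonpos_iff_eq_zero, tsub_eq_zero_iff_le,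
    ← ENNReal.ofReal_mul (by positivity)] at h1
  have := h1.trans h2
  rw [ENNReal.ofReal_le_ofReal_iff (by norm_num)] at this
  norm_num at this

lemma good_F {a b : ℤ} (ha : a ∈ Ico (-(w.L 0 : ℤ)) (w.L 0)) (hb : b ∈ Ico (-(w.L 0 : ℤ)) (w.L 0))
    {p : ℝ × ℝ} (hp : p ∈ w.cell 0 a ×ˢ w.cell 0 b \ ⋃ n, w.Bad a b n) (n : ℕ) :
    w.In n p.1 ∧ w.In n p.2 ∧
      w.F n (w.P n p.1 + w.P n p.2).toNat = (w.pos 0 a + w.pos 0 b).toNat := by
  induction n with
  | zero =>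
    have h1 := w.mem_cell.1 hp.1.1
    have h2 := w.mem_cell.1 hp.1.2
    exact ⟨by rwa [In, h1], by rwa [In, h2], by simp only [F, P, h1, h2, id]⟩
  | succ n ih =>
    obtain ⟨h1, h2, h3⟩ := ih
    refine ⟨h1.succ, h2.succ, ?_⟩
    have h4 : ¬ w.bad n (w.dig n p.1, w.dig n p.2) := fun h =>
      hp.2 (mem_iUnion.2 ⟨n, hp.1, h⟩)
    have h5 := h1.P_mem
    have h6 := h2.P_mem
    have h7 := not_not.1 h4 (w.P n p.1 + w.P n p.2).toNat (by omega)
    have h8 : (w.P (n + 1) p.1 + w.P (n + 1) p.2).toNat = w.d n (w.dig n p.1) +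
        w.d n (w.dig n p.2) + (w.P n p.1 + w.P n p.2).toNat := by
      rw [h1.P_succ, h2.P_succ]; omega
    rw [F, comp_apply, h8, h7, h3]

theorem not_preerg {T S : ℝ → ℝ} (hT : ∀ x, w.R 1 x (T x)) (hS : ∀ x, w.R (-1) x (S x)) :
    ¬ PreErgodic (fun p : ℝ × ℝ => (T p.1, S p.2)) (volume.prod volume) := by
  intro h
  let A : Set (ℝ × ℝ) := {p | ∀ᶠ n in atTop, w.F n (w.P n p.1 + w.P n p.2).toNat = 0}
  have hA : MeasurableSet A := by
    simp only [A, eventually_atTop, setOf_exists, setOf_forall]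
    refine MeasurableSet.iUnion fun N => MeasurableSet.iInter fun n =>
      MeasurableSet.iInter fun _ => ?_
    have : Measurable fun p : ℝ × ℝ => w.P n p.1 + w.P n p.2 :=
      ((w.meas_P n).comp measurable_fst).add ((w.meas_P n).comp measurable_snd)
    exact this (t := {z : ℤ | w.F n z.toNat = 0}) MeasurableSet.of_discrete
  have hi : (fun p : ℝ × ℝ => (T p.1, S p.2)) ⁻¹' A = A := by
    ext p
    refine eventually_congr (((hT p.1).and (hS p.2)).mono fun n ⟨h1, h2⟩ => ?_)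
    have : w.P n (T p.1) + w.P n (S p.2) = w.P n p.1 + w.P n p.2 := by
      rw [h1.2.2.1, h2.2.2.1]; ring
    simp only [this]
  obtain ⟨a, ha, ha'⟩ := (w.bij 0).surjOn (show (0 : ℤ) ∈ Ico (0 : ℤ) (2 * w.L 0) by
    rw [w.L0]; simp)
  obtain ⟨b, hb, hb'⟩ := (w.bij 0).surjOn (show (1 : ℤ) ∈ Ico (0 : ℤ) (2 * w.L 0) by
    rw [w.L0]; simp)
  rcases eventuallyConst_set.1 (h.aeconst_set hA hi) with h1 | h1
  · refine w.good_pos a b (measure_mono_null ?_ (ae_iff.1 h1))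
    intro p hp hq
    obtain ⟨n, hn⟩ := Eventually.exists hq
    rw [(w.good_F ha hb hp n).2.2, ha', hb'] at hn
    simp at hn
  · refine w.good_pos a a (measure_mono_null ?_ (ae_iff.1 h1))
    intro p hp hq
    apply hq
    exact Eventually.of_forall fun n => by rw [(w.good_F ha ha hp n).2.2, ha']; simp

end Tw

theorem main : ∃ T : ℝ ≃ᵐ ℝ, MeasurePreserving (T : ℝ → ℝ) volume volume ∧
    (∀ k : ℕ, Ergodic (fun x : Fin k → ℝ => fun i => T (x i))
      (Measure.pi (fun _ : Fin k => volume))) ∧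
    ¬ Ergodic (fun p : ℝ × ℝ => (T p.1, T.symm p.2)) (volume.prod volume) := by
  obtain ⟨w⟩ := exists_tw
  obtain ⟨T, h1, h2⟩ := w.exists_T
  refine ⟨T, h1, fun k => ⟨measurePreserving_pi _ _ fun _ => h1, w.preerg h2 k⟩,
    fun h => w.not_preerg h2 (fun x => ?_) h.toPreErgodic⟩
  simpa using (h2 (T.symm x)).symm

end Pool.Agent.H.Berg
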